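import Mathlib

set_option autoImplicit false

/-!
# Long transitive chains of an antisymmetric kernel
-/

open Finset Classical

namespace Pool.Agent.TH447.KL

/-- the sign of `q - p` -/
noncomputable def sg (p q : ℕ) : ℝ := if p < q then 1 else if q < p then -1 else 0

lemma sg_anti (p q : ℕ) : sg p q = - sg q p := by
  unfold sg
  rcases lt_trichotomy p q with h | h | h
  · rw [if_pos h, if_neg (by omega), if_pos h]; norm_num
  · subst h; simp
  · rw [if_neg (by omega), if_pos h, if_pos h]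

lemma abs_sg_le (p q : ℕ) : |sg p q| ≤ 1 := by
  unfold sg
  split_ifs <;> simp

section

variable {ι : Type*} (Ω : Finset ι) (J : ι → Finset ℕ)

/-- the kernel -/
noncomputable def Bf (u v : ι → ℕ → ℝ) : ℝ :=
  ∑ f ∈ Ω, ∑ p ∈ J f, ∑ q ∈ J f, sg p q * (u f p * v f q)

/-- the square of the norm -/
noncomputable def nrm (u : ι → ℕ → ℝ) : ℝ := ∑ f ∈ Ω, ∑ p ∈ J f, (u f p) ^ 2

/-- nonnegative and of total mass at most one -/
def Good (u : ι → ℕ → ℝ) : Prop := ∀ f ∈ Ω, (∀ p, 0 ≤ u f p) ∧ ∑ p ∈ J f, u f p ≤ 1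

lemma nrm_nonneg (u : ι → ℕ → ℝ) : 0 ≤ nrm Ω J u :=
  sum_nonneg fun _ _ => sum_nonneg fun _ _ => sq_nonneg _

lemma Bf_swap (u v : ι → ℕ → ℝ) : Bf Ω J u v = - Bf Ω J v u := by
  unfold Bf
  rw [← sum_neg_distrib]
  apply sum_congr rfl
  intro f _
  rw [sum_comm, ← sum_neg_distrib]
  apply sum_congr rfl
  intro p _
  rw [← sum_neg_distrib]
  apply sum_congr rfl
  intro q _
  rw [sg_anti]
  ring

lemma Bf_self (u : ι → ℕ → ℝ) : Bf Ω J u u = 0 := by
  have := Bf_swap Ω J u u
  linarith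

lemma Bf_add_right (u v w : ι → ℕ → ℝ) (a b : ℝ) :
    Bf Ω J u (fun f p => a * v f p + b * w f p) = a * Bf Ω J u v + b * Bf Ω J u w := by
  unfold Bf
  simp only [mul_sum]
  simp only [← sum_add_distrib]
  apply sum_congr rfl
  intro f _
  apply sum_congr rfl
  intro p _
  apply sum_congr rfl
  intro q _
  ring

lemma Bf_add_left (u v w : ι → ℕ → ℝ) (a b : ℝ) :
    Bf Ω J (fun f p => a * v f p + b * w f p) u = a * Bf Ω J v u + b * Bf Ω J w u := by
  rw [Bf_swap, Bf_add_right, Bf_swap Ω J v u, Bf_swap Ω J w u]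
  ring

lemma step {R : ℕ} (hJ : ∀ f ∈ Ω, (J f).card ≤ R) {u v : ι → ℕ → ℝ} (hu : Good Ω J u) {ε : ℝ}
    (hε : 0 ≤ ε) (hΩ : 0 < Ω.card) (h : ε * Ω.card ≤ Bf Ω J u v) :
    ε ^ 2 * Ω.card ≤ R * nrm Ω J (fun f p => v f p - u f p) := by
  set d : ι → ℕ → ℝ := fun f p => v f p - u f p with hd
  have h1 : Bf Ω J u v = Bf Ω J u d := by
    have e : d = fun f p => 1 * v f p + (-1) * u f p := by
      funext f p
      simp only [hd]
      ring
    rw [e, Bf_add_right, Bf_self]
    ring
  have h2 : Bf Ω J u d ≤ ∑ f ∈ Ω, ∑ q ∈ J f, |d f q| := by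
    unfold Bf
    apply sum_le_sum
    intro f hf
    have h3 : ∑ p ∈ J f, ∑ q ∈ J f, sg p q * (u f p * d f q) ≤
        ∑ p ∈ J f, ∑ q ∈ J f, u f p * |d f q| := by
      apply sum_le_sum
      intro p _
      apply sum_le_sum
      intro q _
      have hup := (hu f hf).1 p
      have h4 : sg p q * (u f p * d f q) ≤ |sg p q * (u f p * d f q)| := le_abs_self _
      rw [abs_mul, abs_mul, abs_of_nonneg hup] at h4
      refine h4.trans ?_
      have h5 := abs_sg_le p q
      have h6 : 0 ≤ u f p * |d f q| := mul_nonneg hup (abs_nonneg _)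
      nlinarith
    refine h3.trans ?_
    rw [← sum_mul_sum]
    have h7 : 0 ≤ ∑ q ∈ J f, |d f q| := sum_nonneg fun _ _ => abs_nonneg _
    have h8 := (hu f hf).2
    nlinarith
  set D := ∑ f ∈ Ω, ∑ q ∈ J f, |d f q| with hD
  have hDε : ε * Ω.card ≤ D := by rw [h1] at h; exact h.trans h2
  have h9 : D ^ 2 ≤ Ω.card * ∑ f ∈ Ω, (∑ q ∈ J f, |d f q|) ^ 2 :=
    sq_sum_le_card_mul_sum_sq
  have h10 : ∑ f ∈ Ω, (∑ q ∈ J f, |d f q|) ^ 2 ≤ R * nrm Ω J d := by
    unfold nrm
    rw [mul_sum]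
    apply sum_le_sum
    intro f hf
    have h11 : (∑ q ∈ J f, |d f q|) ^ 2 ≤ (J f).card * ∑ q ∈ J f, |d f q| ^ 2 :=
      sq_sum_le_card_mul_sum_sq
    refine h11.trans ?_
    simp only [sq_abs]
    apply mul_le_mul_of_nonneg_right _ (sum_nonneg fun _ _ => sq_nonneg _)
    exact_mod_cast hJ f hf
  have hΩR : (0 : ℝ) < Ω.card := by exact_mod_cast hΩ
  have h12 : (ε * Ω.card) ^ 2 ≤ D ^ 2 := by
    have : 0 ≤ ε * Ω.card := by positivity
    nlinarith
  have h13 : (Ω.card : ℝ) * (ε ^ 2 * Ω.card) ≤ Ω.card * (R * nrm Ω J d) := by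
    calc (Ω.card : ℝ) * (ε ^ 2 * Ω.card) = (ε * Ω.card) ^ 2 := by ring
      _ ≤ D ^ 2 := h12
      _ ≤ _ := h9
      _ ≤ _ := mul_le_mul_of_nonneg_left h10 hΩR.le
  exact le_of_mul_le_mul_left h13 hΩR

lemma nrm_half (u v : ι → ℕ → ℝ) :
    nrm Ω J (fun f p => 1 / 2 * u f p + 1 / 2 * v f p) =
      nrm Ω J u / 2 + nrm Ω J v / 2 - nrm Ω J (fun f p => v f p - u f p) / 4 := by
  unfold nrm
  rw [sum_div, sum_div, sum_div, ← sum_add_distrib, ← sum_sub_distrib]
  apply sum_congr rfl
  intro f _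
  rw [sum_div, sum_div, sum_div, ← sum_add_distrib, ← sum_sub_distrib]
  apply sum_congr rfl
  intro p _
  ring

lemma good_half {u v : ι → ℕ → ℝ} (hu : Good Ω J u) (hv : Good Ω J v) :
    Good Ω J (fun f p => 1 / 2 * u f p + 1 / 2 * v f p) := by
  intro f hf
  obtain ⟨h1, h2⟩ := hu f hf
  obtain ⟨h3, h4⟩ := hv f hf
  refine ⟨fun p => by have := h1 p; have := h3 p; positivity, ?_⟩
  rw [sum_add_distrib, ← mul_sum, ← mul_sum]
  linarith

lemma sum_map_ge (l : List ℝ) (c : ℝ) (h : ∀ x ∈ l, c ≤ x) : c * l.length ≤ l.sum := by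
  induction l with
  | nil => simp
  | cons a l ih =>
    rw [List.length_cons, List.sum_cons]
    have h1 := h a (List.mem_cons_self ..)
    have h2 := ih (fun x hx => h x (List.mem_cons_of_mem _ hx))
    push_cast
    linarith

theorem energy {α : Type*} {R : ℕ} (hJ : ∀ f ∈ Ω, (J f).card ≤ R) (hR : 0 < R)
    (hΩ : 0 < Ω.card) (G : α → ι → ℕ → ℝ) (E ε : ℝ) (hε : 0 ≤ ε) :
    ∀ (k : ℕ) (l : List α), l.length = 2 ^ k → (∀ x ∈ l, Good Ω J (G x) ∧ nrm Ω J (G x) ≤ E) →
      l.Pairwise (fun x y => ε * Ω.card ≤ Bf Ω J (G x) (G y)) →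
      ∃ a : ι → ℕ → ℝ, Good Ω J a ∧ nrm Ω J a ≤ E - k * (ε ^ 2 * Ω.card / (4 * R)) ∧
        (∀ v, Bf Ω J a v = (1 / 2 ^ k) * (l.map (fun x => Bf Ω J (G x) v)).sum) ∧
        (∀ v, Bf Ω J v a = (1 / 2 ^ k) * (l.map (fun x => Bf Ω J v (G x))).sum) := by
  intro k
  induction k with
  | zero =>
    intro l hl h1 _
    rw [pow_zero, List.length_eq_one_iff] at hl
    obtain ⟨x, rfl⟩ := hl
    refine ⟨G x, (h1 x (by simp)).1, ?_, ?_, ?_⟩
    · simpa using (h1 x (by simp)).2
    · intro v; simp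
    · intro v; simp
  | succ k ih =>
    intro l hl h1 h2
    set l1 := l.take (2 ^ k) with hl1
    set l2 := l.drop (2 ^ k) with hl2
    have hll : l = l1 ++ l2 := (List.take_append_drop _ _).symm
    have hlen1 : l1.length = 2 ^ k := by
      rw [hl1, List.length_take, hl, pow_succ]; omega
    have hlen2 : l2.length = 2 ^ k := by
      rw [hl2, List.length_drop, hl, pow_succ]; omega
    rw [hll, List.pairwise_append] at h2
    obtain ⟨h21, h22, h23⟩ := h2
    obtain ⟨a1, g1, n1, b1, c1⟩ := ih l1 hlen1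
      (fun x hx => h1 x (by rw [hll]; exact List.mem_append_left _ hx)) h21
    obtain ⟨a2, g2, n2, b2, c2⟩ := ih l2 hlen2
      (fun x hx => h1 x (by rw [hll]; exact List.mem_append_right _ hx)) h22
    have hpow : (0 : ℝ) < 2 ^ k := by positivity
    have hcross : ε * Ω.card ≤ Bf Ω J a1 a2 := by
      rw [b1]
      have h3 : ∀ x ∈ l1, ε * Ω.card ≤ Bf Ω J (G x) a2 := by
        intro x hx
        rw [c2]
        have h4 := sum_map_ge (l2.map (fun y => Bf Ω J (G x) (G y))) (ε * Ω.card) (by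
          intro z hz
          obtain ⟨y, hy, rfl⟩ := List.mem_map.1 hz
          exact h23 x hx y hy)
        rw [List.length_map, hlen2] at h4
        push_cast at h4
        rw [one_div, ← div_eq_inv_mul, le_div_iff₀ hpow]
        exact h4
      have h5 := sum_map_ge (l1.map (fun x => Bf Ω J (G x) a2)) (ε * Ω.card) (by
        intro z hz
        obtain ⟨x, hx, rfl⟩ := List.mem_map.1 hz
        exact h3 x hx)
      rw [List.length_map, hlen1] at h5
      push_cast at h5
      rw [one_div, ← div_eq_inv_mul, le_div_iff₀ hpow]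
      exact h5
    have hst := step Ω J hJ g1 hε hΩ hcross
    refine ⟨fun f p => 1 / 2 * a1 f p + 1 / 2 * a2 f p, good_half Ω J g1 g2, ?_, ?_, ?_⟩
    · rw [nrm_half]
      have hRR : (0 : ℝ) < R := by exact_mod_cast hR
      have h6 : ε ^ 2 * Ω.card / (4 * R) ≤ nrm Ω J (fun f p => a2 f p - a1 f p) / 4 := by
        rw [div_le_div_iff₀ (by positivity) (by norm_num)]
        nlinarith
      push_cast
      linarith
    · intro v
      rw [Bf_add_left, b1, b2, hll, List.map_append, List.sum_append, pow_succ]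
      field_simp
    · intro v
      rw [Bf_add_right, c1, c2, hll, List.map_append, List.sum_append, pow_succ]
      field_simp

end

/-- transitive subtournaments -/
theorem transitive_list {α : Type*} (T : α → α → Prop) (hT : ∀ x y, x ≠ y → T x y ∨ T y x) :
    ∀ (m : ℕ) (s : Finset α), 2 ^ m ≤ s.card →
      ∃ l : List α, l.length = m + 1 ∧ (∀ x ∈ l, x ∈ s) ∧ l.Pairwise T := by
  intro m
  induction m with
  | zero =>
    intro s hs
    obtain ⟨x, hx⟩ := card_pos.1 (show 0 < s.card by simpa using hs)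
    exact ⟨[x], by simp, by simpa using hx, List.pairwise_singleton _ _⟩
  | succ m ih =>
    intro s hs
    have hpos : 0 < s.card := lt_of_lt_of_le (by positivity) hs
    obtain ⟨v, hv⟩ := card_pos.1 hpos
    set s1 := (s.erase v).filter (fun y => T v y) with hs1
    set s2 := (s.erase v).filter (fun y => ¬ T v y) with hs2
    have hsum : s1.card + s2.card = s.card - 1 := by
      rw [hs1, hs2, card_filter_add_card_filter_not, card_erase_of_mem hv]
    have hor : 2 ^ m ≤ s1.card ∨ 2 ^ m ≤ s2.card := by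
      rw [pow_succ] at hs
      omega
    rcases hor with h | h
    · obtain ⟨l, h1, h2, h3⟩ := ih s1 h
      refine ⟨v :: l, by rw [List.length_cons, h1], ?_, ?_⟩
      · intro x hx
        rcases List.mem_cons.1 hx with rfl | hx
        · exact hv
        · exact mem_of_mem_erase (mem_of_mem_filter _ (h2 x hx))
      · rw [List.pairwise_cons]
        exact ⟨fun x hx => (mem_filter.1 (h2 x hx)).2, h3⟩
    · obtain ⟨l, h1, h2, h3⟩ := ih s2 h
      refine ⟨l ++ [v], by rw [List.length_append, h1]; rfl, ?_, ?_⟩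
      · intro x hx
        rcases List.mem_append.1 hx with hx | hx
        · exact mem_of_mem_erase (mem_of_mem_filter _ (h2 x hx))
        · rw [List.mem_singleton] at hx
          subst hx; exact hv
      · rw [List.pairwise_append]
        refine ⟨h3, List.pairwise_singleton _ _, ?_⟩
        intro x hx y hy
        rw [List.mem_singleton] at hy
        subst hy
        have hx2 := mem_filter.1 (h2 x hx)
        rcases hT x y (ne_of_mem_erase hx2.1) with h4 | h4
        · exact h4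
        · exact absurd h4 hx2.2

end Pool.Agent.TH447.KL
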