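import Mathlib
import Pool.Agent.TH447.KS.Key
import Pool.Agent.TH447.KL.Energy

set_option autoImplicit false

/-!
# Windows: the positions available to one element
-/

open Finset Classical

namespace Pool.Agent.TH447.KL

open Pool.Agent.TH447.KS

variable {P : Type} [Fintype P]

/-- the positions available to `x` in `f` -/
noncomputable def win (r : P → P → Prop) (x : P) (f : KS.Ord P) : Finset ℕ :=
  (range (Fintype.card P)).filter
    (fun p => (∀ s, r s x → (f s : ℕ) < p) ∧ ∀ s, r x s → p < (f s : ℕ))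

lemma self_mem_win {r : P → P → Prop} {x : P} {f : KS.Ord P} (hf : f ∈ Lin r) :
    (f x : ℕ) ∈ win r x f := by
  rw [mem_Lin] at hf
  simp only [win, mem_filter, mem_range]
  exact ⟨(f x).2, fun s hs => Fin.lt_def.1 (hf s x hs), fun s hs => Fin.lt_def.1 (hf x s hs)⟩

/-- rank of `z` after removal of `x` -/
noncomputable def kap (x : P) (f : KS.Ord P) (z : P) : ℕ :=
  (univ.filter (fun y => y ≠ x ∧ f y < f z)).card

lemma pos_kap (x : P) (f : KS.Ord P) (z : P) :
    (f z : ℕ) = kap x f z + if f x < f z then 1 else 0 := by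
  rw [pos_eq]
  unfold kap
  have h1 : (univ.filter (fun y => y ≠ x ∧ f y < f z)) =
      (univ.filter (fun y => f y < f z)).erase x := by
    ext y
    simp only [mem_filter, mem_univ, true_and, mem_erase]
  rw [h1]
  split_ifs with h
  · rw [card_erase_of_mem (by simpa using h)]
    have : 0 < (univ.filter (fun y => f y < f z)).card := card_pos.2 ⟨x, by simpa using h⟩
    omega
  · rw [erase_eq_of_notMem (by simpa using h)]
    rfl

lemma kap_same {x : P} {f g : KS.Ord P} (h : Same x f g) {z : P} (hz : z ≠ x) :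
    kap x f z = kap x g z := by
  unfold kap
  congr 1
  ext y
  simp only [mem_filter, mem_univ, true_and]
  constructor
  · rintro ⟨h1, h2⟩; exact ⟨h1, (h y z h1 hz).1 h2⟩
  · rintro ⟨h1, h2⟩; exact ⟨h1, (h y z h1 hz).2 h2⟩

lemma pos_same_comp {r : P → P → Prop} {x : P} {f g : KS.Ord P} (hf : f ∈ Lin r) (hg : g ∈ Lin r)
    (h : Same x f g) {s : P} (hs : r s x ∨ r x s) : (f s : ℕ) = g s := by
  rw [mem_Lin] at hf hg
  have hsx : s ≠ x := by
    rintro rfl
    rcases hs with hs | hs <;> exact lt_irrefl _ (hf _ _ hs)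
  rw [pos_kap x f s, pos_kap x g s, kap_same h hsx]
  congr 1
  rcases hs with hs | hs
  · rw [if_neg (not_lt.2 (hf _ _ hs).le), if_neg (not_lt.2 (hg _ _ hs).le)]
  · rw [if_pos (hf _ _ hs), if_pos (hg _ _ hs)]

lemma win_same {r : P → P → Prop} {x : P} {f g : KS.Ord P} (hf : f ∈ Lin r) (hg : g ∈ Lin r)
    (h : Same x f g) : win r x f = win r x g := by
  unfold win
  apply filter_congr
  intro p _
  constructor
  · rintro ⟨h1, h2⟩
    refine ⟨fun s hs => ?_, fun s hs => ?_⟩
    · rw [← pos_same_comp hf hg h (Or.inl hs)]; exact h1 s hs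
    · rw [← pos_same_comp hf hg h (Or.inr hs)]; exact h2 s hs
  · rintro ⟨h1, h2⟩
    refine ⟨fun s hs => ?_, fun s hs => ?_⟩
    · rw [pos_same_comp hf hg h (Or.inl hs)]; exact h1 s hs
    · rw [pos_same_comp hf hg h (Or.inr hs)]; exact h2 s hs

/-- the class of `f` -/
noncomputable def cls (r : P → P → Prop) (x : P) (f : KS.Ord P) : Finset (KS.Ord P) :=
  (Lin r).filter (fun g => Same x g f)

lemma mem_cls {r : P → P → Prop} {x : P} {f g : KS.Ord P} :
    g ∈ cls r x f ↔ g ∈ Lin r ∧ Same x g f := by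
  simp [cls]

lemma cls_image {r : P → P → Prop} {x : P} {f : KS.Ord P} (hf : f ∈ Lin r) :
    (cls r x f).image (fun g => (g x : ℕ)) = win r x f := by
  ext p
  constructor
  · intro hp
    obtain ⟨g, hg, rfl⟩ := mem_image.1 hp
    obtain ⟨hg1, hg2⟩ := mem_cls.1 hg
    rw [← win_same hg1 hf hg2]
    exact self_mem_win hg1
  · intro hp
    simp only [win, mem_filter, mem_range] at hp
    obtain ⟨hp0, hp1, hp2⟩ := hp
    obtain ⟨g, hg1, hg2⟩ := exists_insert f x p hp0
    refine mem_image.2 ⟨g, mem_cls.2 ⟨?_, hg1⟩, hg2⟩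
    have hf' := mem_Lin.1 hf
    have key : ∀ s, s ≠ x → (g s : ℕ) = kap x f s + if g x < g s then 1 else 0 := by
      intro s hs
      rw [pos_kap x g s, kap_same hg1 hs]
    apply mem_class hf hg1
    · intro s hs
      have hsx : s ≠ x := by rintro rfl; exact lt_irrefl _ (hf' _ _ hs)
      have h1 := hp1 s hs
      rw [pos_kap x f s, if_neg (not_lt.2 (hf' _ _ hs).le)] at h1
      by_contra hcon
      have h2 : g x < g s := lt_of_le_of_ne (not_lt.1 hcon) (fun e => hsx (g.injective e).symm)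
      have h3 := key s hsx
      rw [if_pos h2] at h3
      rw [Fin.lt_def] at h2
      omega
    · intro s hs
      have hsx : s ≠ x := by rintro rfl; exact lt_irrefl _ (hf' _ _ hs)
      have h1 := hp2 s hs
      rw [pos_kap x f s, if_pos (hf' _ _ hs)] at h1
      by_contra hcon
      have h3 := key s hsx
      rw [if_neg hcon] at h3
      rw [Fin.lt_def] at hcon
      have h4 : (g s : ℕ) ≠ g x := fun e => hsx (g.injective (Fin.ext e))
      omega

lemma cls_inj {r : P → P → Prop} {x : P} {f : KS.Ord P} :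
    Set.InjOn (fun g : KS.Ord P => (g x : ℕ)) (cls r x f) := by
  intro g hg h hh he
  rw [mem_coe, mem_cls] at hg hh
  exact same_eq (hg.2.trans hh.2.symm) (Fin.ext he)

lemma cls_card {r : P → P → Prop} {x : P} {f : KS.Ord P} (hf : f ∈ Lin r) :
    (cls r x f).card = (win r x f).card := by
  rw [← cls_image hf, card_image_of_injOn cls_inj]

lemma sum_cls {r : P → P → Prop} {x : P} {f : KS.Ord P} (hf : f ∈ Lin r) (F : ℕ → ℝ) :
    ∑ g ∈ cls r x f, F (g x) = ∑ p ∈ win r x f, F p := by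
  rw [← cls_image hf, sum_image]
  intro a ha b hb h
  exact cls_inj ha hb h

lemma win_pos {r : P → P → Prop} {x : P} {f : KS.Ord P} (hf : f ∈ Lin r) :
    0 < (win r x f).card := card_pos.2 ⟨_, self_mem_win hf⟩

/-- resampling the position of one element -/
lemma resample (r : P → P → Prop) (x : P) (F : KS.Ord P → ℝ) :
    ∑ f ∈ Lin r, F f = ∑ f ∈ Lin r, (1 / ((win r x f).card : ℝ)) * ∑ g ∈ cls r x f, F g := by
  have h1 : ∀ f ∈ Lin r, (1 / ((win r x f).card : ℝ)) * ∑ g ∈ cls r x f, F g =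
      ∑ g ∈ Lin r, if Same x g f then (1 / ((win r x g).card : ℝ)) * F g else 0 := by
    intro f hf
    rw [mul_sum, ← sum_filter]
    apply sum_congr rfl
    intro g hg
    rw [mem_cls] at hg
    rw [win_same hg.1 hf hg.2]
  rw [sum_congr rfl h1, sum_comm]
  apply sum_congr rfl
  intro g hg
  rw [← sum_filter, sum_const, nsmul_eq_mul]
  have h2 : ((Lin r).filter (fun f => Same x g f)).card = (win r x g).card := by
    rw [← cls_card hg]
    congr 1
    ext f
    rw [mem_filter, mem_cls]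
    exact ⟨fun h => ⟨h.1, h.2.symm⟩, fun h => ⟨h.1, h.2.symm⟩⟩
  rw [h2]
  have h3 : (0 : ℝ) < (win r x g).card := by exact_mod_cast win_pos hg
  field_simp

/-- average sign over the window of `x` -/
noncomputable def Phi (r : P → P → Prop) (x : P) (f : KS.Ord P) (q : ℕ) : ℝ :=
  (1 / ((win r x f).card : ℝ)) * ∑ p ∈ win r x f, sg p q

lemma first_smooth {r : P → P → Prop} {x y : P} (hxy : y ≠ x) {f : KS.Ord P} (hf : f ∈ Lin r) :
    |∑ g ∈ cls r x f, sg (g x) (g y) - ∑ p ∈ win r x f, sg p (f y)| ≤ 1 := by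
  set κ := kap x f y with hκ
  have h1 : ∑ g ∈ cls r x f, sg (g x) (g y) =
      ∑ p ∈ win r x f, (if κ < p then (-1 : ℝ) else 1) := by
    rw [← sum_cls hf (fun p => if κ < p then (-1 : ℝ) else 1)]
    apply sum_congr rfl
    intro g hg
    obtain ⟨hg1, hg2⟩ := mem_cls.1 hg
    have h2 := pos_kap x g y
    rw [kap_same hg2 hxy, ← hκ] at h2
    have h3 : (g x : ℕ) ≠ g y := fun e => hxy (g.injective (Fin.ext e)).symm
    unfold sg
    by_cases h : g x < g y
    · rw [if_pos h] at h2
      rw [Fin.lt_def] at h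
      rw [if_pos h, if_neg (by omega)]
    · rw [if_neg h] at h2
      rw [Fin.lt_def] at h
      rw [if_neg h, if_pos (by omega), if_pos (by omega)]
  rw [h1, ← sum_sub_distrib]
  have h4 := pos_kap x f y
  rw [← hκ] at h4
  have h5 : ∀ p ∈ win r x f, |(if κ < p then (-1 : ℝ) else 1) - sg p (f y)| ≤
      if p = (f y : ℕ) then 1 else 0 := by
    intro p _
    unfold sg
    by_cases h : f x < f y
    · rw [if_pos h] at h4
      rcases lt_trichotomy p (f y : ℕ) with h6 | h6 | h6
      · rw [if_neg (by omega), if_pos h6, if_neg (by omega)]; simp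
      · rw [if_pos (by omega), if_neg (by omega), if_neg (by omega), if_pos h6]; simp
      · rw [if_pos (by omega), if_neg (by omega), if_pos h6, if_neg (by omega)]; simp
    · rw [if_neg h] at h4
      rcases lt_trichotomy p (f y : ℕ) with h6 | h6 | h6
      · rw [if_neg (by omega), if_pos h6, if_neg (by omega)]; simp
      · rw [if_neg (by omega), if_neg (by omega), if_neg (by omega), if_pos h6]; simp
      · rw [if_pos (by omega), if_neg (by omega), if_pos h6, if_neg (by omega)]; simp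
  refine (abs_sum_le_sum_abs _ _).trans ((sum_le_sum h5).trans ?_)
  rw [← sum_filter, sum_const, nsmul_eq_mul, mul_one]
  have h7 : ((win r x f).filter (fun p => p = (f y : ℕ))).card ≤ 1 := by
    rw [card_le_one]
    intro a ha b hb
    rw [(mem_filter.1 ha).2, (mem_filter.1 hb).2]
  exact_mod_cast h7

/-- moving `y` changes every other position by at most one -/
lemma near {y : P} {f g : KS.Ord P} (h : Same y f g) {z : P} (hz : z ≠ y) :
    (f z : ℕ) ≤ g z + 1 ∧ (g z : ℕ) ≤ f z + 1 := by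
  rw [pos_kap y f z, pos_kap y g z, kap_same h hz]
  constructor <;> split_ifs <;> omega

lemma sdiff_le {r : P → P → Prop} {x y : P} (h1 : ¬ r x y) (h2 : ¬ r y x) {f g : KS.Ord P}
    (h : Same y f g) : (win r x f \ win r x g).card ≤ 2 := by
  have hsub : win r x f \ win r x g ⊆
      (win r x f).filter (fun p => ∃ s, r s x ∧ (f s : ℕ) + 1 = p) ∪
      (win r x f).filter (fun p => ∃ s, r x s ∧ p + 1 = (f s : ℕ)) := by
    intro p hp
    rw [mem_sdiff] at hp
    obtain ⟨hp1, hp2⟩ := hp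
    have hp3 := hp1
    simp only [win, mem_filter, mem_range] at hp3 hp2
    push Not at hp2
    rw [mem_union, mem_filter, mem_filter]
    by_cases hD : ∀ s, r s x → (g s : ℕ) < p
    · obtain ⟨s, hs, hle⟩ := hp2 hp3.1 hD
      right
      refine ⟨hp1, s, hs, ?_⟩
      have h3 := hp3.2.2 s hs
      have h4 := (near h (z := s) (by rintro rfl; exact h1 hs)).1
      omega
    · push Not at hD
      obtain ⟨s, hs, hle⟩ := hD
      left
      refine ⟨hp1, s, hs, ?_⟩
      have h3 := hp3.2.1 s hs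
      have h4 := (near h (z := s) (by rintro rfl; exact h2 hs)).2
      omega
  refine (card_le_card hsub).trans ((card_union_le _ _).trans ?_)
  have hA : ((win r x f).filter (fun p => ∃ s, r s x ∧ (f s : ℕ) + 1 = p)).card ≤ 1 := by
    rw [card_le_one]
    intro a ha b hb
    rw [mem_filter] at ha hb
    obtain ⟨ha1, s, hs, hsa⟩ := ha
    obtain ⟨hb1, t, ht, htb⟩ := hb
    simp only [win, mem_filter, mem_range] at ha1 hb1
    have h3 := ha1.2.1 t ht
    have h4 := hb1.2.1 s hs
    omega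
  have hB : ((win r x f).filter (fun p => ∃ s, r x s ∧ p + 1 = (f s : ℕ))).card ≤ 1 := by
    rw [card_le_one]
    intro a ha b hb
    rw [mem_filter] at ha hb
    obtain ⟨ha1, s, hs, hsa⟩ := ha
    obtain ⟨hb1, t, ht, htb⟩ := hb
    simp only [win, mem_filter, mem_range] at ha1 hb1
    have h3 := ha1.2.2 t ht
    have h4 := hb1.2.2 s hs
    omega
  omega

lemma avg_near (I I' : Finset ℕ) (s : ℕ → ℝ) (hs : ∀ p, |s p| ≤ 1) (hI : 0 < I.card)
    (hI' : 0 < I'.card) (h1 : (I \ I').card ≤ 2) (h2 : (I' \ I).card ≤ 2) :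
    |(1 / (I.card : ℝ)) * ∑ p ∈ I, s p - (1 / (I'.card : ℝ)) * ∑ p ∈ I', s p| ≤
      6 * (1 / (I.card : ℝ)) := by
  have hIR : (0 : ℝ) < I.card := by exact_mod_cast hI
  have hIR' : (0 : ℝ) < I'.card := by exact_mod_cast hI'
  have e1 : ∑ p ∈ I, s p = ∑ p ∈ I \ I', s p + ∑ p ∈ I ∩ I', s p := by
    rw [add_comm, sum_inter_add_sum_sdiff]
  have e2 : ∑ p ∈ I', s p = ∑ p ∈ I' \ I, s p + ∑ p ∈ I ∩ I', s p := by
    rw [add_comm, inter_comm, sum_inter_add_sum_sdiff]
  have b1 : |∑ p ∈ I \ I', s p| ≤ 2 := by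
    refine (abs_sum_le_sum_abs _ _).trans ((sum_le_sum fun p _ => hs p).trans ?_)
    rw [sum_const, nsmul_eq_mul, mul_one]
    exact_mod_cast h1
  have b2 : |∑ p ∈ I' \ I, s p| ≤ 2 := by
    refine (abs_sum_le_sum_abs _ _).trans ((sum_le_sum fun p _ => hs p).trans ?_)
    rw [sum_const, nsmul_eq_mul, mul_one]
    exact_mod_cast h2
  have b3 : |∑ p ∈ I', s p| ≤ I'.card := by
    refine (abs_sum_le_sum_abs _ _).trans ((sum_le_sum fun p _ => hs p).trans ?_)
    rw [sum_const, nsmul_eq_mul, mul_one]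
  have c1 : (I.card : ℝ) ≤ I'.card + 2 := by
    have : I.card ≤ I'.card + (I \ I').card := by
      have := card_sdiff_add_card I I'
      have h3 := card_le_card (show I ⊆ I ∪ I' from subset_union_left)
      omega
    have h4 : I.card ≤ I'.card + 2 := by omega
    exact_mod_cast h4
  have c2 : (I'.card : ℝ) ≤ I.card + 2 := by
    have : I'.card ≤ I.card + (I' \ I).card := by
      have := card_sdiff_add_card I' I
      have h3 := card_le_card (show I' ⊆ I' ∪ I from subset_union_left)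
      omega
    have h4 : I'.card ≤ I.card + 2 := by omega
    exact_mod_cast h4
  have key : (1 / (I.card : ℝ)) * ∑ p ∈ I, s p - (1 / (I'.card : ℝ)) * ∑ p ∈ I', s p =
      (1 / (I.card : ℝ)) * ((∑ p ∈ I, s p - ∑ p ∈ I', s p) +
        ((I'.card : ℝ) - I.card) * ((∑ p ∈ I', s p) / I'.card)) := by
    field_simp
    ring
  rw [key, abs_mul, abs_of_pos (show (0 : ℝ) < 1 / I.card by positivity), mul_comm (6 : ℝ)]
  apply mul_le_mul_of_nonneg_left _ (by positivity)
  refine (abs_add_le _ _).trans ?_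
  have d1 : |∑ p ∈ I, s p - ∑ p ∈ I', s p| ≤ 4 := by
    rw [e1, e2, show ∑ p ∈ I \ I', s p + ∑ p ∈ I ∩ I', s p -
      (∑ p ∈ I' \ I, s p + ∑ p ∈ I ∩ I', s p) = ∑ p ∈ I \ I', s p - ∑ p ∈ I' \ I, s p by ring]
    refine (abs_sub _ _).trans ?_
    linarith
  have d2 : |((I'.card : ℝ) - I.card) * ((∑ p ∈ I', s p) / I'.card)| ≤ 2 := by
    rw [abs_mul, abs_div, abs_of_pos hIR']
    have h5 : |(I'.card : ℝ) - I.card| ≤ 2 := by
      rw [abs_le]; constructor <;> linarith
    have h6 : |∑ p ∈ I', s p| / (I'.card : ℝ) ≤ 1 := by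
      rw [div_le_one hIR']; exact b3
    have h7 : 0 ≤ |∑ p ∈ I', s p| / (I'.card : ℝ) := by positivity
    have h8 : 0 ≤ |(I'.card : ℝ) - I.card| := abs_nonneg _
    nlinarith
  linarith

lemma Phi_near {r : P → P → Prop} {x y : P} (h1 : ¬ r x y) (h2 : ¬ r y x) {f g : KS.Ord P}
    (hf : f ∈ Lin r) (hg : g ∈ Lin r) (h : Same y f g) (q : ℕ) :
    |Phi r x f q - Phi r x g q| ≤ 6 * (1 / ((win r x f).card : ℝ)) :=
  avg_near _ _ _ (fun p => abs_sg_le p q) (win_pos hf) (win_pos hg) (sdiff_le h1 h2 h)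
    (sdiff_le h1 h2 h.symm)

/-- the smoothed kernel -/
noncomputable def Psi (r : P → P → Prop) (x y : P) (f : KS.Ord P) : ℝ :=
  (1 / ((win r y f).card : ℝ)) * ∑ q ∈ win r y f, Phi r x f q

/-- **Smoothing.** -/
theorem smooth {r : P → P → Prop} {x y : P} (hxy : y ≠ x) (h1 : ¬ r x y) (h2 : ¬ r y x) :
    |∑ f ∈ Lin r, sg (f x) (f y) - ∑ f ∈ Lin r, Psi r x y f| ≤
      7 * ∑ f ∈ Lin r, 1 / ((win r x f).card : ℝ) := by
  have hA : |∑ f ∈ Lin r, sg (f x) (f y) - ∑ f ∈ Lin r, Phi r x f (f y)| ≤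
      ∑ f ∈ Lin r, 1 / ((win r x f).card : ℝ) := by
    rw [resample r x (fun f => sg (f x) (f y)), ← sum_sub_distrib]
    refine (abs_sum_le_sum_abs _ _).trans (sum_le_sum ?_)
    intro f hf
    unfold Phi
    rw [← mul_sub, abs_mul, abs_of_nonneg (show (0 : ℝ) ≤ 1 / (win r x f).card by positivity)]
    have := first_smooth hxy hf
    have h3 : (0 : ℝ) ≤ 1 / (win r x f).card := by positivity
    nlinarith
  have hB : |∑ f ∈ Lin r, Phi r x f (f y) - ∑ f ∈ Lin r, Psi r x y f| ≤
      6 * ∑ f ∈ Lin r, 1 / ((win r x f).card : ℝ) := by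
    rw [resample r y (fun f => Phi r x f (f y)), ← sum_sub_distrib, mul_sum]
    refine (abs_sum_le_sum_abs _ _).trans (sum_le_sum ?_)
    intro f hf
    unfold Psi
    rw [← mul_sub, abs_mul, abs_of_nonneg (show (0 : ℝ) ≤ 1 / (win r y f).card by positivity)]
    rw [← sum_cls hf (fun q => Phi r x f q), ← sum_sub_distrib]
    have h3 : |∑ g ∈ cls r y f, (Phi r x g (g y) - Phi r x f (g y))| ≤
        (win r y f).card * (6 * (1 / ((win r x f).card : ℝ))) := by
      refine (abs_sum_le_sum_abs _ _).trans ?_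
      rw [← cls_card hf, ← nsmul_eq_mul, ← sum_const]
      apply sum_le_sum
      intro g hg
      obtain ⟨hg1, hg2⟩ := mem_cls.1 hg
      rw [abs_sub_comm]
      exact Phi_near h1 h2 hf hg1 hg2.symm _
    have h4 : (0 : ℝ) < (win r y f).card := by exact_mod_cast win_pos hf
    calc (1 / ((win r y f).card : ℝ)) * |∑ g ∈ cls r y f, (Phi r x g (g y) - Phi r x f (g y))|
        ≤ (1 / ((win r y f).card : ℝ)) * ((win r y f).card * (6 * (1 / ((win r x f).card : ℝ)))) :=
          mul_le_mul_of_nonneg_left h3 (by positivity)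
      _ = 6 * (1 / ((win r x f).card : ℝ)) := by field_simp
  have e : ∑ f ∈ Lin r, sg (f x) (f y) - ∑ f ∈ Lin r, Psi r x y f =
      (∑ f ∈ Lin r, sg (f x) (f y) - ∑ f ∈ Lin r, Phi r x f (f y)) +
      (∑ f ∈ Lin r, Phi r x f (f y) - ∑ f ∈ Lin r, Psi r x y f) := by ring
  rw [e]
  refine (abs_add_le _ _).trans ?_
  linarith

end Pool.Agent.TH447.KL
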