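import Mathlib
import Pool.Agent.TH447.KL.Win

set_option autoImplicit false

/-!
# Few linear extensions have many small windows: the upper count
-/

open Finset Classical

namespace Pool.Agent.TH447.KL

open Pool.Agent.TH447.KS

variable {P : Type} [Fintype P]

/-- offset of `x` in its window -/
noncomputable def off (r : P → P → Prop) (x : P) (f : KS.Ord P) : ℕ :=
  ((win r x f).filter (fun p => p < (f x : ℕ))).card

lemma off_lt {r : P → P → Prop} {x : P} {f : KS.Ord P} (hf : f ∈ Lin r) :
    off r x f < (win r x f).card := by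
  unfold off
  apply card_lt_card
  rw [filter_ssubset]
  exact ⟨f x, self_mem_win hf, lt_irrefl _⟩

lemma off_lt_off {r : P → P → Prop} {z : P} {f g : KS.Ord P} (hf : f ∈ Lin r) (hg : g ∈ Lin r)
    (hlt : (f z : ℕ) < g z) (hD : ∀ s, r s z → (f s : ℕ) = g s) : off r z f < off r z g := by
  unfold off
  have hsub : (win r z f).filter (fun p => p < (f z : ℕ)) ⊆
      ((win r z g).filter (fun p => p < (g z : ℕ))).erase (f z : ℕ) := by
    intro q hq
    simp only [win, mem_filter, mem_range, mem_erase] at hq ⊢
    obtain ⟨⟨h1, h2, h3⟩, h4⟩ := hq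
    refine ⟨by omega, ⟨h1, ?_, ?_⟩, by omega⟩
    · intro s hs
      rw [← hD s hs]; exact h2 s hs
    · intro s hs
      have := Fin.lt_def.1 (mem_Lin.1 hg z s hs)
      omega
  have hmem : (f z : ℕ) ∈ (win r z g).filter (fun p => p < (g z : ℕ)) := by
    simp only [win, mem_filter, mem_range]
    refine ⟨⟨(f z).2, ?_, ?_⟩, hlt⟩
    · intro s hs
      rw [← hD s hs]
      exact Fin.lt_def.1 (mem_Lin.1 hf s z hs)
    · intro s hs
      have := Fin.lt_def.1 (mem_Lin.1 hg z s hs)
      omega
  have h1 := card_le_card hsub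
  rw [card_erase_of_mem hmem] at h1
  have h2 := card_pos.2 ⟨_, hmem⟩
  omega

/-- a linear extension is determined by its order away from the antichain and the offsets -/
lemma eq_of_off {r : P → P → Prop} {A : Finset P} {f g : KS.Ord P} (hf : f ∈ Lin r)
    (hg : g ∈ Lin r) (hfg : ∀ a b, a ∉ A → b ∉ A → (f a < f b ↔ g a < g b))
    (hoff : ∀ x ∈ A, off r x f = off r x g) : f = g := by
  have half : ∀ (f g : KS.Ord P), f ∈ Lin r → g ∈ Lin r →
      (∀ a b, a ∉ A → b ∉ A → (f a < f b ↔ g a < g b)) →
      (∀ x ∈ A, off r x f = off r x g) → ∀ p : ℕ,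
      (∀ q < p, ∀ z, (f z : ℕ) = q ↔ (g z : ℕ) = q) → ∀ z, (f z : ℕ) = p → (g z : ℕ) = p := by
    intro f g hf hg hfg hoff p ih z hz
    by_contra hcon
    have h1 : p < (g z : ℕ) := by
      by_contra h2
      have h3 : (g z : ℕ) < p := by omega
      have := (ih _ h3 z).2 rfl
      omega
    have hpn : p < Fintype.card P := hz ▸ (f z).2
    obtain ⟨v, hv⟩ := g.surjective ⟨p, hpn⟩
    have hv' : (g v : ℕ) = p := by rw [hv]
    have h4 : p < (f v : ℕ) := by
      by_contra h5
      rcases Nat.lt_or_ge (f v : ℕ) p with h6 | h6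
      · have := (ih _ h6 v).1 rfl
        omega
      · have h7 : (f v : ℕ) = f z := by omega
        have h8 : v = z := f.injective (Fin.ext h7)
        subst h8
        omega
    by_cases hzA : z ∈ A
    · have h9 := off_lt_off hf hg (z := z) (by omega) (by
        intro s hs
        have h10 := Fin.lt_def.1 (mem_Lin.1 hf s z hs)
        exact ((ih (f s : ℕ) (by omega) s).1 rfl).symm)
      have := hoff z hzA
      omega
    · by_cases hvA : v ∈ A
      · have h9 := off_lt_off hg hf (z := v) (by omega) (by
          intro s hs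
          have h10 := Fin.lt_def.1 (mem_Lin.1 hg s v hs)
          exact ((ih (g s : ℕ) (by omega) s).2 rfl).symm)
        have := hoff v hvA
        omega
      · have h9 := (hfg z v hzA hvA).1 (by rw [Fin.lt_def]; omega)
        rw [Fin.lt_def] at h9
        omega
  have main : ∀ p : ℕ, ∀ z, (f z : ℕ) = p ↔ (g z : ℕ) = p := by
    intro p
    induction p using Nat.strong_induction_on with
    | _ p ih =>
      intro z
      exact ⟨half f g hf hg hfg hoff p ih z,
        half g f hg hf (fun a b ha hb => (hfg a b ha hb).symm)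
          (fun x hx => (hoff x hx).symm) p (fun q hq z => (ih q hq z).symm) z⟩
  ext z
  exact ((main _ z).1 rfl).symm

/-- the order away from `A` -/
def rhoA (A : Finset P) (f : KS.Ord P) : P → P → Prop := fun a b => a ∉ A ∧ b ∉ A ∧ f a < f b

lemma rhoA_iff {A : Finset P} {f g : KS.Ord P} (h : rhoA A f = rhoA A g) {a b : P} (ha : a ∉ A)
    (hb : b ∉ A) : f a < f b ↔ g a < g b := by
  have := congrFun (congrFun h a) b
  simp only [rhoA, ha, hb, not_false_eq_true, true_and, eq_iff_iff] at this
  exact this

/-- elements of `A` with a small window -/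
noncomputable def small (r : P → P → Prop) (A : Finset P) (ℓ : ℕ) (f : KS.Ord P) : Finset P :=
  A.filter (fun x => (win r x f).card ≤ ℓ)

lemma fiber_le (r : P → P → Prop) (A B : Finset P) (hB : B ⊆ A) (ℓ R : ℕ)
    (hR : ∀ f ∈ Lin r, ∀ x ∈ A, (win r x f).card ≤ R) :
    ((Lin r).filter (fun f => small r A ℓ f = B)).card ≤
      ((Lin r).image (rhoA A)).card * (ℓ ^ B.card * R ^ (A.card - B.card)) := by
  set T : P → Finset ℕ := fun x => if x ∈ A then (if x ∈ B then range ℓ else range R) else {0}
    with hT
  have hcard : (Fintype.piFinset T).card = ℓ ^ B.card * R ^ (A.card - B.card) := by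
    rw [Fintype.card_piFinset]
    have h1 : ∀ x : P, (T x).card = if x ∈ A then (if x ∈ B then ℓ else R) else 1 := by
      intro x
      simp only [hT]
      split_ifs <;> simp
    rw [prod_congr rfl (fun x _ => h1 x), prod_ite_mem, univ_inter, prod_ite, prod_const,
      prod_const]
    congr 2
    · congr 1
      rw [filter_mem_eq_inter, inter_eq_right.2 hB]
    · rw [← card_sdiff_of_subset hB]
      congr 1
      ext x
      simp only [mem_filter, mem_sdiff]
  rw [← hcard, ← card_product]
  apply card_le_card_of_injOn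
    (fun f => (rhoA A f, fun x => if x ∈ A then off r x f else 0))
  · intro f hf
    rw [mem_coe, mem_filter] at hf
    obtain ⟨hf1, hf2⟩ := hf
    rw [mem_coe, mem_product]
    refine ⟨mem_image_of_mem _ hf1, ?_⟩
    rw [Fintype.mem_piFinset]
    intro x
    simp only [hT]
    by_cases hxA : x ∈ A
    · rw [if_pos hxA, if_pos hxA]
      have h2 := off_lt (x := x) hf1
      by_cases hxB : x ∈ B
      · rw [if_pos hxB, mem_range]
        rw [← hf2, small, mem_filter] at hxB
        omega
      · rw [if_neg hxB, mem_range]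
        have := hR f hf1 x hxA
        omega
    · rw [if_neg hxA, if_neg hxA, mem_singleton]
  · intro f hf g hg h
    rw [mem_coe, mem_filter] at hf hg
    simp only [Prod.mk.injEq] at h
    obtain ⟨h1, h2⟩ := h
    apply eq_of_off hf.1 hg.1 (fun a b ha hb => rhoA_iff h1 ha hb)
    intro x hx
    have := congrFun h2 x
    rwa [if_pos hx, if_pos hx] at this

/-- linear extensions with at least `m` small windows -/
noncomputable def bad (r : P → P → Prop) (A : Finset P) (ℓ m : ℕ) : Finset (KS.Ord P) :=
  (Lin r).filter (fun f => m ≤ (small r A ℓ f).card)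

theorem bad_le (r : P → P → Prop) (A : Finset P) (ℓ m R : ℕ) (hℓR : ℓ ≤ R) (hR1 : 1 ≤ R)
    (hR : ∀ f ∈ Lin r, ∀ x ∈ A, (win r x f).card ≤ R) :
    (bad r A ℓ m).card ≤
      ((Lin r).image (rhoA A)).card * (2 ^ A.card * (ℓ ^ m * R ^ (A.card - m))) := by
  have h1 : bad r A ℓ m ⊆ (A.powerset.filter (fun B => m ≤ B.card)).biUnion
      (fun B => (Lin r).filter (fun f => small r A ℓ f = B)) := by
    intro f hf
    rw [bad, mem_filter] at hf
    rw [mem_biUnion]
    refine ⟨small r A ℓ f, ?_, ?_⟩
    · rw [mem_filter, mem_powerset]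
      exact ⟨filter_subset _ _, hf.2⟩
    · rw [mem_filter]; exact ⟨hf.1, rfl⟩
  refine (card_le_card h1).trans (card_biUnion_le.trans ?_)
  have h2 : ∀ B ∈ A.powerset.filter (fun B => m ≤ B.card),
      ((Lin r).filter (fun f => small r A ℓ f = B)).card ≤
        ((Lin r).image (rhoA A)).card * (ℓ ^ m * R ^ (A.card - m)) := by
    intro B hB
    rw [mem_filter, mem_powerset] at hB
    refine (fiber_le r A B hB.1 ℓ R hR).trans (Nat.mul_le_mul_left _ ?_)
    have h3 := card_le_card hB.1
    have h4 : ℓ ^ B.card = ℓ ^ m * ℓ ^ (B.card - m) := by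
      rw [← pow_add]; congr 1; omega
    have h5 : R ^ (A.card - m) = R ^ (B.card - m) * R ^ (A.card - B.card) := by
      rw [← pow_add]; congr 1; omega
    rw [h4, h5, mul_assoc]
    apply Nat.mul_le_mul_left
    apply Nat.mul_le_mul_right
    exact Nat.pow_le_pow_left hℓR _
  refine (sum_le_card_nsmul _ _ _ h2).trans ?_
  rw [smul_eq_mul]
  have h6 : (A.powerset.filter (fun B => m ≤ B.card)).card ≤ 2 ^ A.card := by
    refine (card_filter_le _ _).trans ?_
    rw [card_powerset]
  calc (A.powerset.filter (fun B => m ≤ B.card)).card *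
        (((Lin r).image (rhoA A)).card * (ℓ ^ m * R ^ (A.card - m)))
      ≤ 2 ^ A.card * (((Lin r).image (rhoA A)).card * (ℓ ^ m * R ^ (A.card - m))) :=
        Nat.mul_le_mul_right _ h6
    _ = _ := by ring

end Pool.Agent.TH447.KL
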