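import Mathlib
import Pool.Agent.TH447.KL.Offset

set_option autoImplicit false

/-!
# Many linear extensions: the lower count
-/

open Finset Classical

namespace Pool.Agent.TH447.KL

open Pool.Agent.TH447.KS

variable {P : Type} [Fintype P]

/-- elements outside `A` incomparable to some element of `A` -/
noncomputable def Nb (r : P → P → Prop) (A : Finset P) : Finset P :=
  univ.filter (fun z => z ∉ A ∧ ∃ x ∈ A, ¬ r z x ∧ ¬ r x z)

/-- elements that go below the block `A` -/
def Lo (r : P → P → Prop) (A : Finset P) (f : KS.Ord P) (z : P) : Prop :=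
  (∃ b, (∀ x ∈ A, r b x) ∧ f z ≤ f b) ∨
    ((¬ ∃ a, (∀ x ∈ A, r x a) ∧ f a ≤ f z) ∧ ¬ ∃ x ∈ A, r x z)

/-- sorting key -/
noncomputable def bkey (r : P → P → Prop) (A : Finset P) (f : KS.Ord P)
    (π : (A : Set P) ≃ Fin A.card) (z : P) : ℕ :=
  if h : z ∈ A then Fintype.card P + (π ⟨z, h⟩ : ℕ)
  else if Lo r A f z then (f z : ℕ) else 2 * Fintype.card P + (f z : ℕ)

section

variable {r : P → P → Prop} {A : Finset P} {f : KS.Ord P} {π : (A : Set P) ≃ Fin A.card}

lemma bkey_mem {z : P} (h : z ∈ A) :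
    bkey r A f π z = Fintype.card P + (π ⟨z, h⟩ : ℕ) := by
  unfold bkey; rw [dif_pos h]

lemma bkey_lo {z : P} (h : z ∉ A) (hl : Lo r A f z) : bkey r A f π z = (f z : ℕ) := by
  unfold bkey; rw [dif_neg h, if_pos hl]

lemma bkey_hi {z : P} (h : z ∉ A) (hl : ¬ Lo r A f z) :
    bkey r A f π z = 2 * Fintype.card P + (f z : ℕ) := by
  unfold bkey; rw [dif_neg h, if_neg hl]

lemma pi_lt (z : P) (h : z ∈ A) : (π ⟨z, h⟩ : ℕ) < Fintype.card P :=
  lt_of_lt_of_le (π ⟨z, h⟩).2 (card_le_univ A)

lemma bkey_inj : Function.Injective (bkey r A f π) := by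
  intro a b hab
  by_cases ha : a ∈ A
  · rw [bkey_mem ha] at hab
    have h1 := pi_lt (π := π) a ha
    by_cases hb : b ∈ A
    · rw [bkey_mem hb] at hab
      have h2 : π ⟨a, ha⟩ = π ⟨b, hb⟩ := Fin.ext (by omega)
      have h3 := π.injective h2
      exact congrArg Subtype.val h3
    · by_cases hl : Lo r A f b
      · rw [bkey_lo hb hl] at hab
        have := (f b).2
        omega
      · rw [bkey_hi hb hl] at hab
        omega
  · by_cases hla : Lo r A f a
    · rw [bkey_lo ha hla] at hab
      have h0 := (f a).2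
      by_cases hb : b ∈ A
      · rw [bkey_mem hb] at hab
        omega
      · by_cases hl : Lo r A f b
        · rw [bkey_lo hb hl] at hab
          exact f.injective (Fin.ext hab)
        · rw [bkey_hi hb hl] at hab
          omega
    · rw [bkey_hi ha hla] at hab
      have h0 := (f a).2
      by_cases hb : b ∈ A
      · rw [bkey_mem hb] at hab
        have h1 := pi_lt (π := π) b hb
        omega
      · by_cases hl : Lo r A f b
        · rw [bkey_lo hb hl] at hab
          have := (f b).2
          omega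
        · rw [bkey_hi hb hl] at hab
          exact f.injective (Fin.ext (by omega))

variable (r A f π) in
/-- the linear extension with `A` as a block -/
noncomputable def blk : KS.Ord P :=
  Classical.choose (Pool.Agent.H931R3.Bal.exists_rank (bkey r A f π) bkey_inj
    (rfl : Fintype.card P = _))

lemma blk_lt (a b : P) : blk r A f π a < blk r A f π b ↔ bkey r A f π a < bkey r A f π b :=
  Classical.choose_spec (Pool.Agent.H931R3.Bal.exists_rank (bkey r A f π) bkey_inj
    (rfl : Fintype.card P = _)) a b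

lemma blk_mem (htr : ∀ a b c, r a b → r b c → r a c) (hA : ∀ a ∈ A, ∀ b ∈ A, ¬ r a b)
    (hf : f ∈ Lin r) : blk r A f π ∈ Lin r := by
  rw [mem_Lin] at hf ⊢
  intro y z hyz
  rw [blk_lt]
  have hfyz := hf y z hyz
  by_cases hy : y ∈ A
  · by_cases hz : z ∈ A
    · exact absurd hyz (hA y hy z hz)
    · have hl : ¬ Lo r A f z := by
        rintro (⟨b, hb, hle⟩ | ⟨-, h2⟩)
        · exact absurd (hf b z (htr _ _ _ (hb y hy) hyz)) (not_lt.2 hle)
        · exact h2 ⟨y, hy, hyz⟩
      rw [bkey_mem hy, bkey_hi hz hl]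
      have := pi_lt (π := π) y hy
      omega
  · by_cases hz : z ∈ A
    · have hl : Lo r A f y := by
        right
        refine ⟨?_, ?_⟩
        · rintro ⟨a, ha, hle⟩
          exact absurd (hf y a (htr _ _ _ hyz (ha z hz))) (not_lt.2 hle)
        · rintro ⟨x, hx, hxy⟩
          exact hA x hx z hz (htr _ _ _ hxy hyz)
      rw [bkey_mem hz, bkey_lo hy hl]
      have := (f y).2
      omega
    · rw [Fin.lt_def] at hfyz
      by_cases hly : Lo r A f y
      · by_cases hlz : Lo r A f z
        · rw [bkey_lo hy hly, bkey_lo hz hlz]; exact hfyz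
        · rw [bkey_lo hy hly, bkey_hi hz hlz]
          have := (f y).2
          omega
      · have hlz : ¬ Lo r A f z := by
          rintro (⟨b, hb, hle⟩ | ⟨h1, h2⟩)
          · exact hly (Or.inl ⟨b, hb, (Fin.lt_def.2 hfyz).le.trans hle⟩)
          · apply hly
            right
            refine ⟨?_, ?_⟩
            · rintro ⟨a, ha, hle⟩
              exact h1 ⟨a, ha, hle.trans (Fin.lt_def.2 hfyz).le⟩
            · rintro ⟨x, hx, hxy⟩
              exact h2 ⟨x, hx, htr _ _ _ hxy hyz⟩
        rw [bkey_hi hy hly, bkey_hi hz hlz]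
        omega

end

/-- rank inside `N` -/
noncomputable def rkN (N : Finset P) (f : KS.Ord P) (z : P) : ℕ :=
  (N.filter (fun y => f y < f z)).card

lemma rkN_lt_iff {N : Finset P} {f : KS.Ord P} {y z : P} (hy : y ∈ N) (hz : z ∈ N) :
    rkN N f y < rkN N f z ↔ f y < f z := by
  have mono : ∀ a b, a ∈ N → f a < f b → rkN N f a < rkN N f b := by
    intro a b ha hab
    unfold rkN
    apply card_lt_card
    rw [ssubset_iff_of_subset]
    · exact ⟨a, by simp [ha, hab], by simp⟩
    · intro c hc
      rw [mem_filter] at hc ⊢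
      exact ⟨hc.1, hc.2.trans hab⟩
  constructor
  · intro h
    by_contra hcon
    rcases (not_lt.1 hcon).lt_or_eq with h1 | h1
    · have := mono z y hz h1
      omega
    · have h2 : z = y := f.injective h1
      subst h2
      omega
  · exact mono y z hy

lemma rkN_lt {N : Finset P} {f : KS.Ord P} {z : P} (hz : z ∈ N) : rkN N f z < N.card := by
  unfold rkN
  apply card_lt_card
  rw [filter_ssubset]
  exact ⟨z, hz, lt_irrefl _⟩

lemma rkN_inj {N : Finset P} {f : KS.Ord P} : Set.InjOn (rkN N f) N := by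
  intro y hy z hz h
  by_contra hne
  rcases lt_or_gt_of_ne (fun e => hne (f.injective e) : f y ≠ f z) with h1 | h1
  · have := (rkN_lt_iff hy hz).2 h1
    omega
  · have := (rkN_lt_iff hz hy).2 h1
    omega

lemma rkN_image {N : Finset P} {f : KS.Ord P} : N.image (rkN N f) = range N.card := by
  apply eq_of_subset_of_card_le
  · intro i hi
    obtain ⟨z, hz, rfl⟩ := mem_image.1 hi
    exact mem_range.2 (rkN_lt hz)
  · rw [card_range, card_image_of_injOn rkN_inj]

/-- an order embedding into the natural numbers is determined by its image -/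
lemma uniq {S : Finset P} {a b : P → ℕ} (hab : S.image a = S.image b)
    (ha : Set.InjOn a S) (hb : Set.InjOn b S)
    (h : ∀ y ∈ S, ∀ z ∈ S, a y < a z ↔ b y < b z) : ∀ z ∈ S, a z = b z := by
  have cnt : ∀ (a : P → ℕ), Set.InjOn a S → ∀ z, ((S.image a).filter (fun t => t < a z)).card =
      (S.filter (fun y => a y < a z)).card := by
    intro a ha z
    rw [filter_image, card_image_of_injOn]
    intro y hy y' hy' h
    rw [mem_coe, mem_filter] at hy hy'
    exact ha hy.1 hy'.1 h
  intro z hz
  have h1 : (S.filter (fun y => a y < a z)).card = (S.filter (fun y => b y < b z)).card := by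
    congr 1
    apply filter_congr
    intro y hy
    exact h y hy z hz
  rw [← cnt a ha z, ← cnt b hb z, hab] at h1
  have haz : a z ∈ S.image b := by rw [← hab]; exact mem_image_of_mem _ hz
  have hbz : b z ∈ S.image b := mem_image_of_mem _ hz
  rcases lt_trichotomy (a z) (b z) with h2 | h2 | h2
  · exfalso
    have : ((S.image b).filter (fun t => t < a z)).card <
        ((S.image b).filter (fun t => t < b z)).card := by
      apply card_lt_card
      rw [ssubset_iff_of_subset]
      · exact ⟨a z, mem_filter.2 ⟨haz, h2⟩, by simp⟩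
      · intro t ht
        rw [mem_filter] at ht ⊢
        exact ⟨ht.1, ht.2.trans h2⟩
    omega
  · exact h2
  · exfalso
    have : ((S.image b).filter (fun t => t < b z)).card <
        ((S.image b).filter (fun t => t < a z)).card := by
      apply card_lt_card
      rw [ssubset_iff_of_subset]
      · exact ⟨b z, mem_filter.2 ⟨hbz, h2⟩, by simp⟩
      · intro t ht
        rw [mem_filter] at ht ⊢
        exact ⟨ht.1, ht.2.trans h2⟩
    omega

/-- the code of the interleaving -/
noncomputable def code (r : P → P → Prop) (A : Finset P) (f : KS.Ord P) : Finset ℕ :=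
  ((Nb r A).filter (fun z => ¬ Lo r A f z)).image (rkN (Nb r A) f)

lemma code_sub (r : P → P → Prop) (A : Finset P) (f : KS.Ord P) :
    code r A f ⊆ range (Nb r A).card := by
  intro i hi
  obtain ⟨z, hz, rfl⟩ := mem_image.1 hi
  exact mem_range.2 (rkN_lt (mem_filter.1 hz).1)

lemma code_compl (r : P → P → Prop) (A : Finset P) (f : KS.Ord P) :
    ((Nb r A).filter (fun z => Lo r A f z)).image (rkN (Nb r A) f) =
      range (Nb r A).card \ code r A f := by
  rw [← rkN_image (N := Nb r A) (f := f)]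
  ext i
  simp only [code, mem_image, mem_sdiff, mem_filter]
  constructor
  · rintro ⟨z, ⟨h1, h2⟩, rfl⟩
    refine ⟨⟨z, h1, rfl⟩, ?_⟩
    rintro ⟨y, ⟨h3, h4⟩, h5⟩
    have := rkN_inj h3 h1 h5
    subst this
    exact h4 h2
  · rintro ⟨⟨z, h1, rfl⟩, h2⟩
    refine ⟨z, ⟨h1, ?_⟩, rfl⟩
    by_contra h3
    exact h2 ⟨z, ⟨h1, h3⟩, rfl⟩

lemma blk_determines {r : P → P → Prop} {A : Finset P}
    (htr : ∀ a b c, r a b → r b c → r a c) (hA : ∀ a ∈ A, ∀ b ∈ A, ¬ r a b) (hAne : A.Nonempty)
    {f g : KS.Ord P} {π σ : (A : Set P) ≃ Fin A.card} (hf : f ∈ Lin r) (hg : g ∈ Lin r)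
    (hb : blk r A f π = blk r A g σ) (hc : code r A f = code r A g) :
    rhoA A f = rhoA A g ∧ π = σ := by
  obtain ⟨x0, hx0⟩ := hAne
  have key : ∀ a b, bkey r A f π a < bkey r A f π b ↔ bkey r A g σ a < bkey r A g σ b := by
    intro a b
    rw [← blk_lt, ← blk_lt, hb]
  have loiff : ∀ z, z ∉ A → (Lo r A f z ↔ Lo r A g z) := by
    intro z hz
    have h1 : ∀ (f : KS.Ord P) (π : (A : Set P) ≃ Fin A.card), Lo r A f z ↔
        bkey r A f π z < bkey r A f π x0 := by
      intro f π
      rw [bkey_mem hx0]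
      have h2 := pi_lt (π := π) x0 hx0
      have h3 := (f z).2
      by_cases hl : Lo r A f z
      · rw [bkey_lo hz hl]
        exact ⟨fun _ => by omega, fun _ => hl⟩
      · rw [bkey_hi hz hl]
        exact ⟨fun h => absurd h hl, fun h => by omega⟩
    rw [h1 f π, h1 g σ, key]
  have both_lo : ∀ y z, y ∉ A → z ∉ A → Lo r A f y → Lo r A f z → (f y < f z ↔ g y < g z) := by
    intro y z hy hz hly hlz
    have h1 := key y z
    rw [bkey_lo hy hly, bkey_lo hz hlz, bkey_lo hy ((loiff y hy).1 hly),
      bkey_lo hz ((loiff z hz).1 hlz)] at h1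
    rw [Fin.lt_def, Fin.lt_def]
    exact h1
  have both_hi : ∀ y z, y ∉ A → z ∉ A → ¬ Lo r A f y → ¬ Lo r A f z →
      (f y < f z ↔ g y < g z) := by
    intro y z hy hz hly hlz
    have h1 := key y z
    rw [bkey_hi hy hly, bkey_hi hz hlz, bkey_hi hy (fun h => hly ((loiff y hy).2 h)),
      bkey_hi hz (fun h => hlz ((loiff z hz).2 h))] at h1
    rw [Fin.lt_def, Fin.lt_def]
    omega
  set N := Nb r A with hN
  have hNA : ∀ z ∈ N, z ∉ A := by
    intro z hz
    rw [hN, Nb, mem_filter] at hz
    exact hz.2.1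
  have hfiltH : N.filter (fun z => ¬ Lo r A f z) = N.filter (fun z => ¬ Lo r A g z) := by
    apply filter_congr
    intro z hz
    rw [loiff z (hNA z hz)]
  have hfiltL : N.filter (fun z => Lo r A f z) = N.filter (fun z => Lo r A g z) := by
    apply filter_congr
    intro z hz
    rw [loiff z (hNA z hz)]
  have rkH : ∀ z ∈ N.filter (fun z => ¬ Lo r A f z), rkN N f z = rkN N g z := by
    apply uniq
    · have h1 := hc
      unfold code at h1
      rw [← hN, ← hfiltH] at h1
      exact h1
    · exact rkN_inj.mono (by intro z hz; exact (mem_filter.1 hz).1)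
    · exact rkN_inj.mono (by intro z hz; exact (mem_filter.1 hz).1)
    · intro y hy z hz
      rw [mem_filter] at hy hz
      rw [rkN_lt_iff hy.1 hz.1, rkN_lt_iff hy.1 hz.1]
      exact both_hi y z (hNA y hy.1) (hNA z hz.1) hy.2 hz.2
  have rkL : ∀ z ∈ N.filter (fun z => Lo r A f z), rkN N f z = rkN N g z := by
    apply uniq
    · rw [hN, code_compl, hc, ← code_compl, ← hN, ← hfiltL]
    · exact rkN_inj.mono (by intro z hz; exact (mem_filter.1 hz).1)
    · exact rkN_inj.mono (by intro z hz; exact (mem_filter.1 hz).1)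
    · intro y hy z hz
      rw [mem_filter] at hy hz
      rw [rkN_lt_iff hy.1 hz.1, rkN_lt_iff hy.1 hz.1]
      exact both_lo y z (hNA y hy.1) (hNA z hz.1) hy.2 hz.2
  have rk : ∀ z ∈ N, rkN N f z = rkN N g z := by
    intro z hz
    by_cases hl : Lo r A f z
    · exact rkL z (mem_filter.2 ⟨hz, hl⟩)
    · exact rkH z (mem_filter.2 ⟨hz, hl⟩)
  have inN : ∀ y ∈ N, ∀ z ∈ N, (f y < f z ↔ g y < g z) := by
    intro y hy z hz
    rw [← rkN_lt_iff hy hz, ← rkN_lt_iff hy hz, rk y hy, rk z hz]
  -- elements outside `A ∪ N` are below all of `A` or above all of `A`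
  have outN : ∀ z, z ∉ A → z ∉ N → (∀ x ∈ A, r z x) ∨ (∀ x ∈ A, r x z) := by
    intro z hz hzN
    have h1 : ∀ x ∈ A, r z x ∨ r x z := by
      intro x hx
      by_contra hcon
      rw [not_or] at hcon
      apply hzN
      rw [hN, Nb, mem_filter]
      exact ⟨mem_univ _, hz, x, hx, hcon⟩
    rcases h1 x0 hx0 with h2 | h2
    · left
      intro x hx
      rcases h1 x hx with h3 | h3
      · exact h3
      · exact absurd (htr _ _ _ h3 h2) (hA x hx x0 hx0)
    · right
      intro x hx
      rcases h1 x hx with h3 | h3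
      · exact absurd (htr _ _ _ h2 h3) (hA x0 hx0 x hx)
      · exact h3
  have below_lo : ∀ (f : KS.Ord P) z, (∀ x ∈ A, r z x) → Lo r A f z :=
    fun f z hz => Or.inl ⟨z, hz, le_rfl⟩
  have above_hi : ∀ (f : KS.Ord P), f ∈ Lin r → ∀ z, (∀ x ∈ A, r x z) → ¬ Lo r A f z := by
    intro f hf z hz
    rw [mem_Lin] at hf
    rintro (⟨b, hb, hle⟩ | ⟨h1, -⟩)
    · exact absurd (hf b z (htr _ _ _ (hb x0 hx0) (hz x0 hx0))) (not_lt.2 hle)
    · exact h1 ⟨z, hz, le_rfl⟩
  have below_lt : ∀ (f : KS.Ord P) y z, (∀ x ∈ A, r y x) → ¬ Lo r A f z → f y < f z := by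
    intro f y z hy hz
    by_contra hcon
    exact hz (Or.inl ⟨y, hy, not_lt.1 hcon⟩)
  have lt_above : ∀ (f : KS.Ord P), f ∈ Lin r → ∀ y z, Lo r A f y → (∀ x ∈ A, r x z) →
      f y < f z := by
    intro f hf y z hy hz
    rcases hy with ⟨b, hb, hle⟩ | ⟨h1, -⟩
    · exact hle.trans_lt (mem_Lin.1 hf b z (htr _ _ _ (hb x0 hx0) (hz x0 hx0)))
    · by_contra hcon
      exact h1 ⟨z, hz, not_lt.1 hcon⟩
  have cross : ∀ y z, y ∉ A → z ∉ A → Lo r A f y → ¬ Lo r A f z → (f y < f z ↔ g y < g z) := by
    intro y z hy hz hly hlz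
    by_cases hyN : y ∈ N
    · by_cases hzN : z ∈ N
      · exact inN y hyN z hzN
      · rcases outN z hz hzN with h | h
        · exact absurd (below_lo f z h) hlz
        · exact ⟨fun _ => lt_above g hg y z ((loiff y hy).1 hly) h,
            fun _ => lt_above f hf y z hly h⟩
    · rcases outN y hy hyN with h | h
      · exact ⟨fun _ => below_lt g y z h (fun k => hlz ((loiff z hz).2 k)),
          fun _ => below_lt f y z h hlz⟩
      · exact absurd hly (above_hi f hf y h)
  have flip : ∀ y z, y ≠ z → (f y < f z ↔ g y < g z) → (f z < f y ↔ g z < g y) := by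
    intro y z hne h
    have h1 : f y ≠ f z := fun e => hne (f.injective e)
    have h2 : g y ≠ g z := fun e => hne (g.injective e)
    constructor
    · intro k
      exact lt_of_le_of_ne (not_lt.1 (fun k' => absurd (h.2 k') (not_lt.2 k.le))) h2.symm
    · intro k
      exact lt_of_le_of_ne (not_lt.1 (fun k' => absurd (h.1 k') (not_lt.2 k.le))) h1.symm
  have all : ∀ y z, y ∉ A → z ∉ A → (f y < f z ↔ g y < g z) := by
    intro y z hy hz
    by_cases hne : y = z
    · subst hne; simp
    by_cases hly : Lo r A f y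
    · by_cases hlz : Lo r A f z
      · exact both_lo y z hy hz hly hlz
      · exact cross y z hy hz hly hlz
    · by_cases hlz : Lo r A f z
      · exact flip z y (Ne.symm hne) (cross z y hz hy hlz hly)
      · exact both_hi y z hy hz hly hlz
  refine ⟨?_, ?_⟩
  · funext y z
    simp only [rhoA, eq_iff_iff]
    constructor
    · rintro ⟨h1, h2, h3⟩; exact ⟨h1, h2, (all y z h1 h2).1 h3⟩
    · rintro ⟨h1, h2, h3⟩; exact ⟨h1, h2, (all y z h1 h2).2 h3⟩
  · apply Pool.Agent.H931R3.Bal.rank_unique
    rintro ⟨a, ha⟩ ⟨b, hb⟩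
    have h1 := key a b
    rw [bkey_mem ha, bkey_mem hb, bkey_mem ha, bkey_mem hb] at h1
    rw [Fin.lt_def, Fin.lt_def]
    omega

theorem block_count {r : P → P → Prop} {A : Finset P}
    (htr : ∀ a b c, r a b → r b c → r a c) (hA : ∀ a ∈ A, ∀ b ∈ A, ¬ r a b) (hAne : A.Nonempty)
    (hne : (Lin r).Nonempty) :
    ((Lin r).image (rhoA A)).card * (A.card).factorial ≤ (Lin r).card * 2 ^ (Nb r A).card := by
  obtain ⟨f0, hf0⟩ := hne
  set rep : (P → P → Prop) → KS.Ord P := fun c =>
    if h : ∃ f ∈ Lin r, rhoA A f = c then h.choose else f0 with hrep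
  have hrep1 : ∀ c, rep c ∈ Lin r := by
    intro c
    simp only [hrep]
    split_ifs with h
    · exact h.choose_spec.1
    · exact hf0
  have hrep2 : ∀ c ∈ (Lin r).image (rhoA A), rhoA A (rep c) = c := by
    intro c hc
    have h : ∃ f ∈ Lin r, rhoA A f = c := by
      obtain ⟨f, hf, h⟩ := mem_image.1 hc
      exact ⟨f, hf, h⟩
    simp only [hrep]
    rw [dif_pos h]
    exact h.choose_spec.2
  have hcard : (univ : Finset ((A : Set P) ≃ Fin A.card)).card = (A.card).factorial := by
    rw [card_univ, Fintype.card_equiv (Fintype.equivFinOfCardEq (by simp))]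
    simp
  have hpow : 2 ^ (Nb r A).card = ((range (Nb r A).card).powerset).card := by
    rw [card_powerset, card_range]
  rw [← hcard, hpow, ← card_product, ← card_product]
  apply card_le_card_of_injOn
    (fun cp => (blk r A (rep cp.1) cp.2, code r A (rep cp.1)))
  · rintro ⟨c, π⟩ h
    rw [mem_coe, mem_product] at h ⊢
    exact ⟨blk_mem htr hA (hrep1 c), mem_powerset.2 (code_sub _ _ _)⟩
  · rintro ⟨c, π⟩ h ⟨c', π'⟩ h' he
    rw [mem_coe, mem_product] at h h'
    simp only [Prod.mk.injEq] at he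
    obtain ⟨h1, h2⟩ := blk_determines htr hA hAne (hrep1 c) (hrep1 c') he.1 he.2
    rw [hrep2 c h.1, hrep2 c' h'.1] at h1
    rw [h1, h2]

end Pool.Agent.TH447.KL
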