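import Mathlib
import Pool.Agent.TH447.KS.Pair
import Pool.Agent.TH447.KL.Block

set_option autoImplicit false

/-!
# Balanced pairs in a large antichain with few incomparable elements around it
-/

open Finset Classical

namespace Pool.Agent.TH447.KL

open Pool.Agent.TH447.KS

variable {P : Type} [Fintype P]

/-- positions of the elements of `A` and of its neighbours -/
noncomputable def Jf (r : P → P → Prop) (A : Finset P) (f : KS.Ord P) : Finset ℕ :=
  (Nb r A ∪ A).image (fun z => (f z : ℕ))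

lemma Jf_card (r : P → P → Prop) (A : Finset P) (f : KS.Ord P) :
    (Jf r A f).card ≤ (Nb r A).card + A.card :=
  card_image_le.trans (card_union_le _ _)

lemma win_sub (r : P → P → Prop) (A : Finset P) (f : KS.Ord P) {x : P} (hx : x ∈ A) :
    win r x f ⊆ Jf r A f := by
  intro p hp
  simp only [win, mem_filter, mem_range] at hp
  obtain ⟨h1, h2, h3⟩ := hp
  refine mem_image.2 ⟨f.symm ⟨p, h1⟩, ?_, by simp⟩
  rw [mem_union]
  by_cases hA : f.symm ⟨p, h1⟩ ∈ A
  · exact Or.inr hA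
  · left
    rw [Nb, mem_filter]
    refine ⟨mem_univ _, hA, x, hx, ?_, ?_⟩
    · intro h
      have := h2 _ h
      simp at this
    · intro h
      have := h3 _ h
      simp at this

/-- truncated density of the window -/
noncomputable def G (r : P → P → Prop) (ℓ : ℕ) (x : P) (f : KS.Ord P) (p : ℕ) : ℝ :=
  if p ∈ win r x f ∧ ℓ < (win r x f).card then 1 / ((win r x f).card : ℝ) else 0

lemma sum_G {r : P → P → Prop} {A : Finset P} {ℓ : ℕ} {x : P} (hx : x ∈ A) {f : KS.Ord P}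
    (F : ℕ → ℝ) : ∑ p ∈ Jf r A f, F p * G r ℓ x f p =
      if ℓ < (win r x f).card then (1 / ((win r x f).card : ℝ)) * ∑ p ∈ win r x f, F p else 0 := by
  by_cases hℓ : ℓ < (win r x f).card
  · rw [if_pos hℓ, mul_sum]
    have h1 : ∀ p ∈ Jf r A f, F p * G r ℓ x f p =
        if p ∈ win r x f then (1 / ((win r x f).card : ℝ)) * F p else 0 := by
      intro p _
      unfold G
      by_cases hp : p ∈ win r x f
      · rw [if_pos ⟨hp, hℓ⟩, if_pos hp]; ring
      · rw [if_neg (fun h => hp h.1), if_neg hp]; ring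
    rw [sum_congr rfl h1, ← sum_filter]
    congr 1
    rw [filter_mem_eq_inter, inter_eq_right.2 (win_sub r A f hx)]
  · rw [if_neg hℓ]
    apply sum_eq_zero
    intro p _
    unfold G
    rw [if_neg (fun h => hℓ h.2)]
    ring

lemma G_nonneg (r : P → P → Prop) (ℓ : ℕ) (x : P) (f : KS.Ord P) (p : ℕ) : 0 ≤ G r ℓ x f p := by
  unfold G
  split_ifs <;> positivity

lemma G_good {r : P → P → Prop} {A : Finset P} {ℓ : ℕ} {x : P} (hx : x ∈ A) :
    Good (Lin r) (Jf r A) (G r ℓ x) := by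
  intro f hf
  refine ⟨G_nonneg r ℓ x f, ?_⟩
  have h := sum_G (r := r) (A := A) (ℓ := ℓ) hx (f := f) (fun _ => 1)
  simp only [one_mul] at h
  rw [h]
  split_ifs with h1
  · rw [sum_const, nsmul_eq_mul, mul_one]
    have : (0 : ℝ) < (win r x f).card := by exact_mod_cast win_pos hf
    rw [one_div, inv_mul_cancel₀ this.ne']
  · norm_num

lemma G_nrm {r : P → P → Prop} {A : Finset P} {ℓ : ℕ} {x : P} (hx : x ∈ A) (hℓ : 1 ≤ ℓ) :
    nrm (Lin r) (Jf r A) (G r ℓ x) ≤ (Lin r).card / ℓ := by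
  unfold nrm
  have hℓR : (0 : ℝ) < ℓ := by exact_mod_cast hℓ
  have h1 : ∀ f ∈ Lin r, ∑ p ∈ Jf r A f, (G r ℓ x f p) ^ 2 ≤ 1 / ℓ := by
    intro f hf
    have h2 : ∀ p ∈ Jf r A f, (G r ℓ x f p) ^ 2 ≤ (1 / ℓ) * G r ℓ x f p := by
      intro p _
      have h3 := G_nonneg r ℓ x f p
      have h4 : G r ℓ x f p ≤ 1 / ℓ := by
        unfold G
        split_ifs with h
        · apply one_div_le_one_div_of_le hℓR
          exact_mod_cast h.2.le
        · positivity
      nlinarith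
    refine (sum_le_sum h2).trans ?_
    rw [← mul_sum]
    have h5 := (G_good (r := r) (A := A) (ℓ := ℓ) hx f hf).2
    have h6 : (0 : ℝ) ≤ 1 / ℓ := by positivity
    nlinarith
  refine (sum_le_sum h1).trans ?_
  rw [sum_const, nsmul_eq_mul]
  apply le_of_eq
  ring

lemma abs_Phi_le {r : P → P → Prop} {x : P} {f : KS.Ord P} (hf : f ∈ Lin r) (q : ℕ) :
    |Phi r x f q| ≤ 1 := by
  unfold Phi
  have h0 : (0 : ℝ) < (win r x f).card := by exact_mod_cast win_pos hf
  rw [abs_mul, abs_of_pos (show (0 : ℝ) < 1 / (win r x f).card by positivity)]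
  have h1 : |∑ p ∈ win r x f, sg p q| ≤ (win r x f).card := by
    refine (abs_sum_le_sum_abs _ _).trans ((sum_le_sum fun p _ => abs_sg_le p q).trans ?_)
    rw [sum_const, nsmul_eq_mul, mul_one]
  calc 1 / ((win r x f).card : ℝ) * |∑ p ∈ win r x f, sg p q|
      ≤ 1 / ((win r x f).card : ℝ) * (win r x f).card :=
        mul_le_mul_of_nonneg_left h1 (by positivity)
    _ = 1 := by field_simp

lemma abs_Psi_le {r : P → P → Prop} {x y : P} {f : KS.Ord P} (hf : f ∈ Lin r) :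
    |Psi r x y f| ≤ 1 := by
  unfold Psi
  have h0 : (0 : ℝ) < (win r y f).card := by exact_mod_cast win_pos hf
  rw [abs_mul, abs_of_pos (show (0 : ℝ) < 1 / (win r y f).card by positivity)]
  have h1 : |∑ q ∈ win r y f, Phi r x f q| ≤ (win r y f).card := by
    refine (abs_sum_le_sum_abs _ _).trans ((sum_le_sum fun p _ => abs_Phi_le hf p).trans ?_)
    rw [sum_const, nsmul_eq_mul, mul_one]
  calc 1 / ((win r y f).card : ℝ) * |∑ q ∈ win r y f, Phi r x f q|
      ≤ 1 / ((win r y f).card : ℝ) * (win r y f).card :=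
        mul_le_mul_of_nonneg_left h1 (by positivity)
    _ = 1 := by field_simp

/-- number of linear extensions in which the window of `x` is small -/
noncomputable def sx (r : P → P → Prop) (ℓ : ℕ) (x : P) : ℕ :=
  ((Lin r).filter (fun f => (win r x f).card ≤ ℓ)).card

lemma Bf_G {r : P → P → Prop} {A : Finset P} {ℓ : ℕ} {x y : P} (hx : x ∈ A) (hy : y ∈ A) :
    Bf (Lin r) (Jf r A) (G r ℓ x) (G r ℓ y) =
      ∑ f ∈ Lin r, if ℓ < (win r x f).card ∧ ℓ < (win r y f).card then Psi r x y f else 0 := by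
  unfold Bf
  apply sum_congr rfl
  intro f _
  have h1 : ∑ p ∈ Jf r A f, ∑ q ∈ Jf r A f, sg p q * (G r ℓ x f p * G r ℓ y f q) =
      ∑ q ∈ Jf r A f, (∑ p ∈ Jf r A f, sg p q * G r ℓ x f p) * G r ℓ y f q := by
    rw [sum_comm]
    apply sum_congr rfl
    intro q _
    rw [sum_mul]
    apply sum_congr rfl
    intro p _
    ring
  rw [h1]
  have h2 : ∀ q, ∑ p ∈ Jf r A f, sg p q * G r ℓ x f p =
      if ℓ < (win r x f).card then Phi r x f q else 0 := by
    intro q
    rw [sum_G hx (fun p => sg p q)]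
    rfl
  simp only [h2]
  rw [sum_G hy (fun q => if ℓ < (win r x f).card then Phi r x f q else 0)]
  by_cases ha : ℓ < (win r x f).card
  · by_cases hb : ℓ < (win r y f).card
    · rw [if_pos hb, if_pos ⟨ha, hb⟩]
      simp only [if_pos ha]
      rfl
    · rw [if_neg hb, if_neg (fun h => hb h.2)]
  · rw [if_neg (fun h : ℓ < (win r x f).card ∧ ℓ < (win r y f).card => ha h.1)]
    simp only [if_neg ha, sum_const_zero, mul_zero, ite_self]

lemma Psi_Bf {r : P → P → Prop} {A : Finset P} {ℓ : ℕ} {x y : P} (hx : x ∈ A) (hy : y ∈ A) :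
    |∑ f ∈ Lin r, Psi r x y f - Bf (Lin r) (Jf r A) (G r ℓ x) (G r ℓ y)| ≤
      sx r ℓ x + sx r ℓ y := by
  rw [Bf_G hx hy, ← sum_sub_distrib]
  have h1 : ∀ f ∈ Lin r, |Psi r x y f -
      (if ℓ < (win r x f).card ∧ ℓ < (win r y f).card then Psi r x y f else 0)| ≤
      (if (win r x f).card ≤ ℓ then (1 : ℝ) else 0) +
        (if (win r y f).card ≤ ℓ then (1 : ℝ) else 0) := by
    intro f hf
    have h2 := abs_Psi_le (x := x) (y := y) hf
    by_cases ha : ℓ < (win r x f).card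
    · by_cases hb : ℓ < (win r y f).card
      · rw [if_pos ⟨ha, hb⟩, if_neg (by omega), if_neg (by omega)]; simp
      · rw [if_neg (fun h => hb h.2), if_neg (by omega), if_pos (by omega)]
        simpa using h2
    · rw [if_neg (fun h : ℓ < (win r x f).card ∧ ℓ < (win r y f).card => ha h.1),
        if_pos (by omega)]
      have : (0 : ℝ) ≤ if (win r y f).card ≤ ℓ then (1 : ℝ) else 0 := by split_ifs <;> norm_num
      rw [sub_zero]
      linarith
  refine (abs_sum_le_sum_abs _ _).trans ((sum_le_sum h1).trans ?_)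
  rw [sum_add_distrib, sum_boole, sum_boole]
  rfl

lemma sum_inv_le {r : P → P → Prop} {ℓ : ℕ} (hℓ : 1 ≤ ℓ) {x : P} :
    ∑ f ∈ Lin r, 1 / ((win r x f).card : ℝ) ≤ (Lin r).card / ℓ + sx r ℓ x := by
  have hℓR : (0 : ℝ) < ℓ := by exact_mod_cast hℓ
  have h1 : ∀ f ∈ Lin r, 1 / ((win r x f).card : ℝ) ≤
      1 / ℓ + if (win r x f).card ≤ ℓ then (1 : ℝ) else 0 := by
    intro f hf
    have h0 : (1 : ℝ) ≤ (win r x f).card := by exact_mod_cast win_pos hf
    split_ifs with h
    · have : 1 / ((win r x f).card : ℝ) ≤ 1 := by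
        rw [div_le_one (by linarith)]; exact h0
      have h2 : (0 : ℝ) ≤ 1 / ℓ := by positivity
      linarith
    · rw [add_zero]
      apply one_div_le_one_div_of_le hℓR
      exact_mod_cast (not_le.1 h).le
  refine (sum_le_sum h1).trans ?_
  rw [sum_add_distrib, sum_boole, sum_const, nsmul_eq_mul]
  apply le_of_eq
  unfold sx
  ring

lemma cnt_sub {r : P → P → Prop} (x y : P) :
    cnt r x y - cnt r y x = ∑ f ∈ Lin r, sg (f x) (f y) := by
  unfold cnt
  rw [← sum_sub_distrib]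
  apply sum_congr rfl
  intro f _
  unfold sg
  by_cases h1 : f x < f y
  · rw [if_pos h1, if_neg (not_lt.2 h1.le), if_pos (Fin.lt_def.1 h1)]; norm_num
  · by_cases h2 : f y < f x
    · rw [if_neg h1, if_pos h2, if_neg (fun h => h1 (Fin.lt_def.2 h)), if_pos (Fin.lt_def.1 h2)]
      norm_num
    · rw [if_neg h1, if_neg h2, if_neg (fun h => h1 (Fin.lt_def.2 h)),
        if_neg (fun h => h2 (Fin.lt_def.2 h))]
      norm_num

lemma cnt_Bf {r : P → P → Prop} {A : Finset P} (hA : ∀ a ∈ A, ∀ b ∈ A, ¬ r a b) {ℓ : ℕ}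
    (hℓ : 1 ≤ ℓ) {x y : P} (hx : x ∈ A) (hy : y ∈ A) (hxy : x ≠ y) :
    |(cnt r x y - cnt r y x) - Bf (Lin r) (Jf r A) (G r ℓ x) (G r ℓ y)| ≤
      7 * (Lin r).card / ℓ + 8 * sx r ℓ x + sx r ℓ y := by
  have h1 := smooth (r := r) hxy.symm (hA x hx y hy) (hA y hy x hx)
  have h2 := Psi_Bf (r := r) (A := A) (ℓ := ℓ) hx hy
  have h3 := sum_inv_le (r := r) hℓ (x := x)
  rw [cnt_sub]
  have e : ∑ f ∈ Lin r, sg (f x) (f y) - Bf (Lin r) (Jf r A) (G r ℓ x) (G r ℓ y) =
      (∑ f ∈ Lin r, sg (f x) (f y) - ∑ f ∈ Lin r, Psi r x y f) +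
      (∑ f ∈ Lin r, Psi r x y f - Bf (Lin r) (Jf r A) (G r ℓ x) (G r ℓ y)) := by ring
  rw [e]
  refine (abs_add_le _ _).trans ?_
  have h4 : 7 * ((Lin r).card : ℝ) / ℓ = 7 * ((Lin r).card / ℓ) := by ring
  rw [h4]
  linarith

/-- **Energy argument.** -/
theorem local_main {r : P → P → Prop} {A A1 : Finset P} (hA : ∀ a ∈ A, ∀ b ∈ A, ¬ r a b)
    (hA1 : A1 ⊆ A) (hAne : A.Nonempty) (hne : (Lin r).Nonempty) {ℓ : ℕ} (hℓ : 1 ≤ ℓ) {ε θ : ℝ}
    (hε : 0 < ε) (hεθ : 7 / ℓ + 9 * θ ≤ ε) (hsx : ∀ x ∈ A1, (sx r ℓ x : ℝ) ≤ θ * (Lin r).card)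
    {k : ℕ} (hk : 4 * ((Nb r A).card + A.card : ℝ) < k * ε ^ 2 * ℓ) (hcard : 2 ^ 2 ^ k ≤ A1.card) :
    ∃ x ∈ A1, ∃ y ∈ A1, x ≠ y ∧ |cnt r x y - cnt r y x| < 2 * ε * (Lin r).card := by
  by_contra hcon
  push Not at hcon
  set R : ℕ := (Nb r A).card + A.card with hR
  have hRpos : 0 < R := by
    have := card_pos.2 hAne
    omega
  have hΩ : 0 < (Lin r).card := card_pos.2 hne
  have hΩR : (0 : ℝ) < (Lin r).card := by exact_mod_cast hΩ
  have hℓR : (0 : ℝ) < ℓ := by exact_mod_cast hℓ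
  -- the kernel is large on all pairs
  have hpair : ∀ x ∈ A1, ∀ y ∈ A1, x ≠ y →
      ε * (Lin r).card ≤ Bf (Lin r) (Jf r A) (G r ℓ x) (G r ℓ y) ∨
      ε * (Lin r).card ≤ Bf (Lin r) (Jf r A) (G r ℓ y) (G r ℓ x) := by
    intro x hx y hy hxy
    have h1 := hcon x hx y hy hxy
    have h2 := cnt_Bf (r := r) hA hℓ (hA1 hx) (hA1 hy) hxy
    have h3 : 7 * ((Lin r).card : ℝ) / ℓ + 8 * sx r ℓ x + sx r ℓ y ≤ ε * (Lin r).card := by
      have h4 := hsx x hx
      have h5 := hsx y hy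
      have h6 : 7 * ((Lin r).card : ℝ) / ℓ = (7 / ℓ) * (Lin r).card := by ring
      rw [h6]
      nlinarith
    rw [Bf_swap (Lin r) (Jf r A) (G r ℓ y)]
    rw [abs_le] at h2
    rcases le_or_gt 0 (cnt r x y - cnt r y x) with h7 | h7
    · left
      rw [abs_of_nonneg h7] at h1
      linarith [h2.2]
    · right
      rw [abs_of_neg h7] at h1
      linarith [h2.1]
  set T : P → P → Prop := fun x y => x ∈ A1 → y ∈ A1 →
    ε * (Lin r).card ≤ Bf (Lin r) (Jf r A) (G r ℓ x) (G r ℓ y) with hT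
  have hTtot : ∀ x y, x ≠ y → T x y ∨ T y x := by
    intro x y hxy
    by_cases hx : x ∈ A1
    · by_cases hy : y ∈ A1
      · rcases hpair x hx y hy hxy with h | h
        · exact Or.inl (fun _ _ => h)
        · exact Or.inr (fun _ _ => h)
      · exact Or.inl (fun _ h => absurd h hy)
    · exact Or.inl (fun h _ => absurd h hx)
  obtain ⟨l0, h1, h2, h3⟩ := transitive_list T hTtot (2 ^ k) A1 hcard
  set l := l0.take (2 ^ k) with hl
  have hlen : l.length = 2 ^ k := by
    rw [hl, List.length_take, h1]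
    omega
  have hmem : ∀ x ∈ l, x ∈ A1 := fun x hx => h2 x (List.mem_of_mem_take hx)
  have hpw : l.Pairwise (fun x y =>
      ε * (Lin r).card ≤ Bf (Lin r) (Jf r A) (G r ℓ x) (G r ℓ y)) := by
    have h4 : l.Pairwise T := h3.sublist (List.take_sublist _ _)
    refine List.Pairwise.imp_of_mem ?_ h4
    intro x y hx hy hxy
    exact hxy (hmem x hx) (hmem y hy)
  obtain ⟨a, -, ha, -, -⟩ := energy (Lin r) (Jf r A) (R := R) (fun f _ => Jf_card r A f) hRpos hΩ
    (G r ℓ) ((Lin r).card / ℓ) ε hε.le k l hlen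
    (fun x hx => ⟨G_good (hA1 (hmem x hx)), G_nrm (hA1 (hmem x hx)) hℓ⟩) hpw
  have h5 := nrm_nonneg (Lin r) (Jf r A) a
  have hRR : (0 : ℝ) < R := by exact_mod_cast hRpos
  have h6 : (k : ℝ) * (ε ^ 2 * (Lin r).card / (4 * R)) ≤ (Lin r).card / ℓ := by linarith
  have h7 : (k : ℝ) * ε ^ 2 * ℓ ≤ 4 * R := by
    have h8 : (k : ℝ) * (ε ^ 2 * (Lin r).card / (4 * R)) = (k * ε ^ 2 * (Lin r).card) / (4 * R) := by
      ring
    rw [h8, div_le_div_iff₀ (by positivity) hℓR] at h6
    have h9 : ((k : ℝ) * ε ^ 2 * ℓ) * (Lin r).card ≤ (4 * R) * (Lin r).card := by nlinarith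
    exact le_of_mul_le_mul_right h9 hΩR
  have h10 : ((R : ℕ) : ℝ) = (Nb r A).card + A.card := by rw [hR]; push_cast; rfl
  rw [h10] at h7
  linarith

/-- few bad linear extensions -/
theorem bad_small {r : P → P → Prop} {A : Finset P}
    (htr : ∀ a b c, r a b → r b c → r a c) (hA : ∀ a ∈ A, ∀ b ∈ A, ¬ r a b) (hAne : A.Nonempty)
    (hne : (Lin r).Nonempty) (C M : ℕ) (hM : 1 ≤ M) (hC : (Nb r A).card ≤ C * A.card) :
    M * (bad r A (A.card / (2 ^ (C + 1) * 3 * (C + 1) * M) ^ M) (A.card / M + 1)).card ≤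
      (Lin r).card := by
  set w := A.card with hw
  set S := 2 ^ (C + 1) * 3 * (C + 1) * M with hS
  set ℓ := w / S ^ M with hℓ
  set m := w / M + 1 with hm
  have hw1 : 1 ≤ w := card_pos.2 hAne
  have hS1 : 1 ≤ S := by
    rw [hS]
    have : 0 < 2 ^ (C + 1) * 3 * (C + 1) * M := by positivity
    exact this
  have hMm : w ≤ M * m := by
    rw [hm]
    have := Nat.lt_mul_div_succ w (show 0 < M by omega)
    exact this.le
  have hR : ∀ f ∈ Lin r, ∀ x ∈ A, (win r x f).card ≤ (C + 1) * w := by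
    intro f _ x hx
    have h1 := card_le_card (win_sub r A f hx)
    have h2 := Jf_card r A f
    nlinarith
  have hℓS : ℓ * S ^ M ≤ w := Nat.div_mul_le_self _ _
  have hℓw : ℓ ≤ w := Nat.div_le_self _ _
  have hℓR : ℓ ≤ (C + 1) * w := by nlinarith
  have hb := bad_le r A ℓ m ((C + 1) * w) hℓR (by nlinarith) hR
  rw [← hw] at hb
  have hK := block_count htr hA hAne hne
  rw [← hw] at hK
  -- powers
  have hp1 : ℓ ^ m * S ^ w ≤ w ^ m := by
    calc ℓ ^ m * S ^ w ≤ ℓ ^ m * S ^ (M * m) :=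
          Nat.mul_le_mul_left _ (Nat.pow_le_pow_right hS1 hMm)
      _ = (ℓ * S ^ M) ^ m := by rw [pow_mul, ← mul_pow ℓ (S ^ M) m]
      _ ≤ w ^ m := Nat.pow_le_pow_left hℓS _
  by_cases hmw : m ≤ w
  · have hp2 : ((C + 1) * w) ^ (w - m) ≤ (C + 1) ^ w * w ^ (w - m) := by
      rw [mul_pow]
      exact Nat.mul_le_mul_right _ (Nat.pow_le_pow_right (Nat.succ_pos C) (Nat.sub_le w m))
    have hp3 : ℓ ^ m * ((C + 1) * w) ^ (w - m) * S ^ w ≤ w ^ w * (C + 1) ^ w := by
      calc ℓ ^ m * ((C + 1) * w) ^ (w - m) * S ^ w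
          = (ℓ ^ m * S ^ w) * ((C + 1) * w) ^ (w - m) := by ring
        _ ≤ w ^ m * ((C + 1) ^ w * w ^ (w - m)) := Nat.mul_le_mul hp1 hp2
        _ = (w ^ m * w ^ (w - m)) * (C + 1) ^ w := by ring
        _ = w ^ w * (C + 1) ^ w := by rw [← pow_add, Nat.add_sub_cancel' hmw]
    have hfac : w ^ w ≤ 3 ^ w * w.factorial := by
      have h1 := Real.pow_div_factorial_le_exp (w : ℝ) (Nat.cast_nonneg _) w
      have h2 : (0 : ℝ) < w.factorial := by exact_mod_cast Nat.factorial_pos w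
      rw [div_le_iff₀ h2] at h1
      have h3 : Real.exp (w : ℝ) ≤ 3 ^ w := by
        have h4 : Real.exp (w : ℝ) = Real.exp 1 ^ w := by
          rw [← Real.exp_nat_mul, mul_one]
        rw [h4]
        exact pow_le_pow_left₀ (Real.exp_pos _).le Real.exp_one_lt_three.le _
      have h5 : ((w : ℝ)) ^ w ≤ 3 ^ w * w.factorial :=
        h1.trans (mul_le_mul_of_nonneg_right h3 h2.le)
      exact_mod_cast h5
    -- combine
    have hpos : 0 < w.factorial * (2 ^ (C + 1) * 3 * (C + 1)) ^ w := by positivity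
    set bd := (bad r A ℓ m).card with hbd
    have hN : 2 ^ (Nb r A).card ≤ 2 ^ (C * w) := Nat.pow_le_pow_right (by norm_num) hC
    have step1 : bd * (w.factorial * S ^ w) ≤
        (Lin r).card * (w.factorial * (2 ^ (C + 1) * 3 * (C + 1)) ^ w) := by
      calc bd * (w.factorial * S ^ w)
          ≤ (((Lin r).image (rhoA A)).card * (2 ^ w * (ℓ ^ m * ((C + 1) * w) ^ (w - m)))) *
            (w.factorial * S ^ w) := Nat.mul_le_mul_right _ hb
        _ = (((Lin r).image (rhoA A)).card * w.factorial) * 2 ^ w *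
            (ℓ ^ m * ((C + 1) * w) ^ (w - m) * S ^ w) := by ring
        _ ≤ ((Lin r).card * 2 ^ (C * w)) * 2 ^ w * (w ^ w * (C + 1) ^ w) := by
            apply Nat.mul_le_mul _ hp3
            apply Nat.mul_le_mul_right
            exact hK.trans (Nat.mul_le_mul_left _ hN)
        _ ≤ ((Lin r).card * 2 ^ (C * w)) * 2 ^ w * ((3 ^ w * w.factorial) * (C + 1) ^ w) := by
            apply Nat.mul_le_mul_left
            exact Nat.mul_le_mul_right _ hfac
        _ = (Lin r).card * (w.factorial * (2 ^ (C + 1) * 3 * (C + 1)) ^ w) := by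
            rw [mul_pow, mul_pow, ← pow_mul]
            have : 2 ^ (C * w) * 2 ^ w = 2 ^ ((C + 1) * w) := by
              rw [← pow_add]; congr 1; ring
            rw [← this]
            ring
    have step2 : (bd * M ^ w) * (w.factorial * (2 ^ (C + 1) * 3 * (C + 1)) ^ w) ≤
        (Lin r).card * (w.factorial * (2 ^ (C + 1) * 3 * (C + 1)) ^ w) := by
      calc (bd * M ^ w) * (w.factorial * (2 ^ (C + 1) * 3 * (C + 1)) ^ w)
          = bd * (w.factorial * S ^ w) := by
            rw [hS, mul_pow (2 ^ (C + 1) * 3 * (C + 1)) M w]; ring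
        _ ≤ _ := step1
    have step3 : bd * M ^ w ≤ (Lin r).card := Nat.le_of_mul_le_mul_right step2 hpos
    calc M * bd ≤ bd * M ^ w := by
          rw [mul_comm]
          apply Nat.mul_le_mul_left
          calc M = M ^ 1 := (pow_one M).symm
            _ ≤ M ^ w := Nat.pow_le_pow_right hM hw1
      _ ≤ _ := step3
  · -- no linear extension has more than `w` small windows
    have h0 : bad r A ℓ m = ∅ := by
      rw [bad, filter_eq_empty_iff]
      intro f _ h
      have h1 : (small r A ℓ f).card ≤ A.card := card_filter_le _ _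
      omega
    rw [h0]
    simp

end Pool.Agent.TH447.KL
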