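import Mathlib
import Pool.Agent.TH447.KL.Main
import Pool.Agent.TH447.KS.IntFin

set_option autoImplicit false

/-!
# Balanced pairs in large antichains with few incomparable elements around them
-/

open Finset Classical

namespace Pool.Agent.TH447.KL

open Pool.Agent.TH447.KS

/-- **Local theorem, relational form.** -/
theorem exists_pair (C : ℕ) (ε : ℝ) (hε : 0 < ε) : ∃ W : ℕ, ∀ (P : Type) [Fintype P]
    (r : P → P → Prop), (∀ a b c, r a b → r b c → r a c) → (Lin r).Nonempty →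
    ∀ A : Finset P, (∀ a ∈ A, ∀ b ∈ A, ¬ r a b) → W ≤ A.card →
      (Nb r A).card ≤ C * A.card →
      ∃ x ∈ A, ∃ y ∈ A, x ≠ y ∧ |cnt r x y - cnt r y x| < 2 * ε * (Lin r).card := by
  set θ : ℝ := ε / 18 with hθ
  have hθ0 : 0 < θ := by positivity
  set M : ℕ := ⌈8 / θ⌉₊ + 1 with hM
  set S : ℕ := 2 ^ (C + 1) * 3 * (C + 1) * M with hS
  set k : ℕ := ⌊8 * (C + 1) * (S : ℝ) ^ M / ε ^ 2⌋₊ + 1 with hk
  set L0 : ℕ := ⌈14 / ε⌉₊ + 1 with hL0
  refine ⟨2 * 2 ^ 2 ^ k + S ^ M * L0 + ⌈4 / θ⌉₊ + 1, ?_⟩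
  intro P _ r htr hne A hA hW hN
  set w : ℕ := A.card with hw
  have hM1 : 1 ≤ M := by omega
  have hMθ : 8 ≤ M * θ := by
    have h1 : 8 / θ ≤ ⌈8 / θ⌉₊ := Nat.le_ceil _
    have h2 : (M : ℝ) = ⌈8 / θ⌉₊ + 1 := by rw [hM]; push_cast; rfl
    rw [h2]
    have h3 : 8 / θ * θ = 8 := by field_simp
    nlinarith
  have hSpos : 0 < S ^ M := by positivity
  set ℓ : ℕ := w / S ^ M with hℓ
  have hAne : A.Nonempty := card_pos.1 (by omega)
  have hw1 : 1 ≤ w := by omega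
  have hℓL : L0 ≤ ℓ := by
    rw [hℓ, Nat.le_div_iff_mul_le hSpos]
    have : L0 * S ^ M = S ^ M * L0 := mul_comm _ _
    omega
  have hℓ1 : 1 ≤ ℓ := by omega
  have hℓR : (0 : ℝ) < ℓ := by exact_mod_cast hℓ1
  have hwℓ : w < 2 * ℓ * S ^ M := by
    have h1 : w < (ℓ + 1) * S ^ M := by
      rw [hℓ, mul_comm]
      exact Nat.lt_mul_div_succ w hSpos
    have h2 : (ℓ + 1) * S ^ M ≤ 2 * ℓ * S ^ M := Nat.mul_le_mul_right _ (by omega)
    omega
  have h7 : 7 / (ℓ : ℝ) ≤ ε / 2 := by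
    have h1 : 14 / ε ≤ (ℓ : ℝ) := by
      have h2 : 14 / ε ≤ ⌈14 / ε⌉₊ := Nat.le_ceil _
      have h3 : ((⌈14 / ε⌉₊ : ℕ) : ℝ) ≤ ℓ := by
        have : ⌈14 / ε⌉₊ ≤ ℓ := by omega
        exact_mod_cast this
      linarith
    rw [div_le_div_iff₀ hℓR (by norm_num)]
    rw [div_le_iff₀ hε] at h1
    linarith
  set A1 : Finset P := A.filter (fun x => (sx r ℓ x : ℝ) ≤ θ * (Lin r).card) with hA1
  have hΩ : 0 < (Lin r).card := card_pos.2 hne
  have hΩR : (0 : ℝ) < (Lin r).card := by exact_mod_cast hΩ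
  set m : ℕ := w / M + 1 with hm
  -- double counting of small windows
  have hbad := bad_small htr hA hAne hne C M hM1 hN
  rw [← hw, ← hS, ← hℓ, ← hm] at hbad
  have hsum : ∑ x ∈ A, sx r ℓ x ≤ m * (Lin r).card + w * (bad r A ℓ m).card := by
    have h1 : ∑ x ∈ A, sx r ℓ x = ∑ f ∈ Lin r, (small r A ℓ f).card := by
      unfold sx small
      simp only [card_filter]
      rw [sum_comm]
    rw [h1]
    have h2 : ∀ f ∈ Lin r, (small r A ℓ f).card ≤
        m + w * (if m ≤ (small r A ℓ f).card then 1 else 0) := by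
      intro f _
      have h3 : (small r A ℓ f).card ≤ w := card_filter_le _ _
      split_ifs with h
      · rw [mul_one]; exact h3.trans (Nat.le_add_left _ _)
      · rw [mul_zero, add_zero]; exact (not_le.1 h).le
    refine (sum_le_sum h2).trans ?_
    rw [sum_add_distrib, sum_const, smul_eq_mul, ← mul_sum, mul_comm m]
    apply Nat.add_le_add_left
    apply Nat.mul_le_mul_left
    rw [← card_filter]
    rfl
  have hcompl : θ * (Lin r).card * (A \ A1).card ≤ ∑ x ∈ A, (sx r ℓ x : ℝ) := by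
    have h1 : ∀ x ∈ A \ A1, θ * (Lin r).card ≤ (sx r ℓ x : ℝ) := by
      intro x hx
      rw [mem_sdiff, hA1, mem_filter] at hx
      by_contra hcon
      exact hx.2 ⟨hx.1, (not_le.1 hcon).le⟩
    have h2 := card_nsmul_le_sum (A \ A1) (fun x => (sx r ℓ x : ℝ)) (θ * (Lin r).card) h1
    rw [nsmul_eq_mul] at h2
    have h3 : ∑ x ∈ A \ A1, (sx r ℓ x : ℝ) ≤ ∑ x ∈ A, (sx r ℓ x : ℝ) :=
      sum_le_sum_of_subset_of_nonneg sdiff_subset (fun _ _ _ => Nat.cast_nonneg _)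
    linarith
  have hA1half : 2 * (A \ A1).card ≤ w := by
    have h1 : (∑ x ∈ A, (sx r ℓ x : ℝ)) ≤ m * (Lin r).card + w * (bad r A ℓ m).card := by
      exact_mod_cast hsum
    have h2 : (M : ℝ) * (bad r A ℓ m).card ≤ (Lin r).card := by exact_mod_cast hbad
    have h3 : (m : ℝ) * M ≤ w + M := by
      have : m * M ≤ w + M := by
        rw [hm, add_mul, one_mul]
        exact Nat.add_le_add_right (Nat.div_mul_le_self w M) M
      exact_mod_cast this
    have hMR : (0 : ℝ) < M := by exact_mod_cast hM1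
    have hwR : (1 : ℝ) ≤ w := by exact_mod_cast hw1
    have h4 : 4 ≤ θ * w := by
      have h5 : 4 / θ ≤ (w : ℝ) := by
        have h6 : 4 / θ ≤ ⌈4 / θ⌉₊ := Nat.le_ceil _
        have h8 : ((⌈4 / θ⌉₊ : ℕ) : ℝ) ≤ w := by
          have : ⌈4 / θ⌉₊ ≤ w := by omega
          exact_mod_cast this
        linarith
      rw [div_le_iff₀ hθ0] at h5
      linarith
    -- M θ |Ω| |A \ A1| ≤ (2 w + M) |Ω|
    have h9 : M * (θ * (A \ A1).card) * (Lin r).card ≤ (2 * w + M) * (Lin r).card := by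
      have h10 : θ * (Lin r).card * (A \ A1).card ≤
          m * (Lin r).card + w * (bad r A ℓ m).card := hcompl.trans h1
      have h11 : M * (θ * (Lin r).card * (A \ A1).card) ≤
          M * (m * (Lin r).card + w * (bad r A ℓ m).card) :=
        mul_le_mul_of_nonneg_left h10 hMR.le
      have h12 : (w : ℝ) * (M * (bad r A ℓ m).card) ≤ w * (Lin r).card :=
        mul_le_mul_of_nonneg_left h2 (by linarith)
      nlinarith
    have h13 : M * (θ * (A \ A1).card) ≤ 2 * w + M := le_of_mul_le_mul_right h9 hΩR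
    -- 2 w ≤ M θ w / 4, M ≤ M θ w / 4
    have h14 : M * (θ * (A \ A1).card) ≤ M * (θ * w) / 2 := by nlinarith
    have h15 : (2 : ℝ) * (A \ A1).card ≤ w := by
      have hMθ0 : 0 < M * θ := by positivity
      have h16 : (M * θ) * (2 * (A \ A1).card) ≤ (M * θ) * w := by linarith
      exact le_of_mul_le_mul_left h16 hMθ0
    exact_mod_cast h15
  have hA1card : 2 ^ 2 ^ k ≤ A1.card := by
    have h1 : (A \ A1).card = w - A1.card := by
      rw [card_sdiff_of_subset (filter_subset _ _)]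
    have h2 : A1.card ≤ w := card_filter_le _ _
    omega
  have hkk : 4 * ((Nb r A).card + A.card : ℝ) < k * ε ^ 2 * ℓ := by
    have h1 : ((Nb r A).card : ℝ) ≤ C * w := by exact_mod_cast hN
    have h2 : 8 * (C + 1) * (S : ℝ) ^ M / ε ^ 2 < k := by
      have := Nat.lt_floor_add_one (8 * (C + 1) * (S : ℝ) ^ M / ε ^ 2)
      have h3 : (k : ℝ) = ⌊8 * (C + 1) * (S : ℝ) ^ M / ε ^ 2⌋₊ + 1 := by rw [hk]; push_cast; rfl
      rw [h3]
      exact this
    rw [div_lt_iff₀ (by positivity)] at h2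
    have h4 : (w : ℝ) < 2 * ℓ * (S : ℝ) ^ M := by exact_mod_cast hwℓ
    have hC0 : (0 : ℝ) ≤ C := Nat.cast_nonneg _
    have h5 : 4 * ((Nb r A).card + w : ℝ) ≤ 4 * ((C + 1) * w) := by linarith
    have h6 : 4 * ((C + 1 : ℝ) * w) ≤ 4 * ((C + 1) * (2 * ℓ * (S : ℝ) ^ M)) := by
      have : ((C : ℝ) + 1) * w ≤ (C + 1) * (2 * ℓ * (S : ℝ) ^ M) :=
        mul_le_mul_of_nonneg_left h4.le (by linarith)
      linarith
    have h8 : 4 * ((C + 1 : ℝ) * (2 * ℓ * (S : ℝ) ^ M)) = (8 * (C + 1) * (S : ℝ) ^ M) * ℓ := by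
      ring
    have h9 : (8 * (C + 1) * (S : ℝ) ^ M) * ℓ < (k * ε ^ 2) * ℓ :=
      mul_lt_mul_of_pos_right h2 hℓR
    linarith
  obtain ⟨x, hx, y, hy, hxy, h⟩ := local_main (θ := θ) hA (filter_subset _ _) hAne hne hℓ1 hε
    (by rw [hθ]; rw [hθ] at *; linarith) (fun x hx => (mem_filter.1 hx).2) hkk hA1card
  exact ⟨x, (mem_filter.1 hx).1, y, (mem_filter.1 hy).1, hxy, h⟩

open Pool.Agent.H13R3.WB Pool.Agent.H931R3.Bal

/-- **Local theorem for posets.** -/
theorem balance_local (C ε : ℝ) (hε : 0 < ε) : ∃ W : ℕ, ∀ (P : Type) [Fintype P]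
    [PartialOrder P] (A : Finset P), IsAntichain (· ≤ ·) (A : Set P) → W ≤ A.card →
      ({z : P | ∃ x ∈ A, ¬ z ≤ x ∧ ¬ x ≤ z} \ A : Set P).ncard ≤ C * (A.card : ℝ) →
      1 / 2 - ε ≤ balance P := by
  obtain ⟨W, h⟩ := exists_pair ⌈C⌉₊ ε hε
  refine ⟨W + 1, ?_⟩
  intro P _ _ A hA hW hN
  have hne : Nonempty P := by
    obtain ⟨x, _⟩ := Finset.card_pos.1 (show 0 < A.card by omega)
    exact ⟨x⟩
  obtain ⟨x, -, y, -, hxy, hlt⟩ := h P (lt' P) (fun a b c => lt_trans) (card_pos.1 lin_pos) A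
    (anti_iff.1 hA) (by omega) (by
      have h1 : (Nb (lt' P) A).card ≤
          ({z : P | ∃ x ∈ A, ¬ z ≤ x ∧ ¬ x ≤ z} \ A : Set P).ncard := by
        rw [← Set.ncard_coe_finset]
        apply Set.ncard_le_ncard
        · intro z hz
          rw [mem_coe, Nb, mem_filter] at hz
          obtain ⟨-, hzA, x, hx, h1, h2⟩ := hz
          refine ⟨⟨x, hx, ?_, ?_⟩, by simpa using hzA⟩
          · intro hle
            exact h1 (lt_of_le_of_ne hle (by rintro rfl; exact hzA hx))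
          · intro hle
            exact h2 (lt_of_le_of_ne hle (by rintro rfl; exact hzA hx))
        · exact Set.toFinite _
      have h2 : ((Nb (lt' P) A).card : ℝ) ≤ ⌈C⌉₊ * A.card := by
        have h3 : ((Nb (lt' P) A).card : ℝ) ≤ C * A.card :=
          le_trans (by exact_mod_cast h1) hN
        exact h3.trans (mul_le_mul_of_nonneg_right (Nat.le_ceil C) (Nat.cast_nonneg _))
      exact_mod_cast h2)
  obtain ⟨h3, h4⟩ := half_of_abs' hxy (c := ε) hlt.le
  exact le_balance_of_cnt h3 h4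

/-- **Local theorem for posets, with the balanced pair in the antichain.** -/
theorem local_antichain (C ε : ℝ) (hε : 0 < ε) : ∃ W : ℕ, ∀ (P : Type) [Fintype P]
    [PartialOrder P] (A : Finset P), IsAntichain (· ≤ ·) (A : Set P) → W ≤ A.card →
      ({z : P | ∃ x ∈ A, ¬ z ≤ x ∧ ¬ x ≤ z} \ A : Set P).ncard ≤ C * (A.card : ℝ) →
      ∃ x ∈ A, ∃ y ∈ A, x ≠ y ∧ 1 / 2 - ε ≤ prob P x y ∧ 1 / 2 - ε ≤ prob P y x := by
  obtain ⟨W, h⟩ := exists_pair ⌈C⌉₊ ε hε
  refine ⟨W + 1, ?_⟩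
  intro P _ _ A hA hW hN
  obtain ⟨x, hx, y, hy, hxy, hlt⟩ := h P (lt' P) (fun a b c => lt_trans) (card_pos.1 lin_pos) A
    (anti_iff.1 hA) (by omega) (by
      have h1 : (Nb (lt' P) A).card ≤
          ({z : P | ∃ x ∈ A, ¬ z ≤ x ∧ ¬ x ≤ z} \ A : Set P).ncard := by
        rw [← Set.ncard_coe_finset]
        apply Set.ncard_le_ncard
        · intro z hz
          rw [mem_coe, Nb, mem_filter] at hz
          obtain ⟨-, hzA, x, hx, h1, h2⟩ := hz
          refine ⟨⟨x, hx, ?_, ?_⟩, by simpa using hzA⟩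
          · intro hle
            exact h1 (lt_of_le_of_ne hle (by rintro rfl; exact hzA hx))
          · intro hle
            exact h2 (lt_of_le_of_ne hle (by rintro rfl; exact hzA hx))
        · exact Set.toFinite _
      have h2 : ((Nb (lt' P) A).card : ℝ) ≤ ⌈C⌉₊ * A.card := by
        have h3 : ((Nb (lt' P) A).card : ℝ) ≤ C * A.card :=
          le_trans (by exact_mod_cast h1) hN
        exact h3.trans (mul_le_mul_of_nonneg_right (Nat.le_ceil C) (Nat.cast_nonneg _))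
      exact_mod_cast h2)
  obtain ⟨h3, h4⟩ := half_of_abs' hxy (c := ε) hlt.le
  have hpos : (0 : ℝ) < (Lin (lt' P)).card := by exact_mod_cast lin_pos
  refine ⟨x, hx, y, hy, hxy, ?_, ?_⟩
  · rw [prob_eq_cnt]; exact (le_div_iff₀ hpos).2 h3
  · rw [prob_eq_cnt]; exact (le_div_iff₀ hpos).2 h4

end Pool.Agent.TH447.KL
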