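import Mathlib
import Pool.Agent.TH447.KL.Final

set_option autoImplicit false

/-!
# Posets in which every element is incomparable to few elements
-/

open Finset Classical

namespace Pool.Agent.TH447.KL

open Pool.Agent.TH447.KS Pool.Agent.H13R3.WB Pool.Agent.H931R3.Bal

section

variable {P : Type} [Fintype P]

/-- elements incomparable to `x` -/
noncomputable def incF (r : P → P → Prop) (x : P) : Finset P :=
  univ.filter (fun z => z ≠ x ∧ ¬ r z x ∧ ¬ r x z)

lemma up_le {r : P → P → Prop} (htr : ∀ a b c, r a b → r b c → r a c) (hirr : ∀ a, ¬ r a a)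
    {A : Finset P} (hA : ∀ a ∈ A, ∀ b ∈ A, ¬ r a b) {B : ℕ} (hB : ∀ x, (incF r x).card ≤ B) :
    ((Nb r A).filter (fun z => ∃ x ∈ A, r x z)).card ≤ 2 * B := by
  set U := (Nb r A).filter (fun z => ∃ x ∈ A, r x z) with hU
  by_cases hUe : U.Nonempty
  · -- a maximal element of `U`
    have hwf : ∃ z ∈ U, ∀ y ∈ U, ¬ r z y := by
      by_contra hcon
      push Not at hcon
      have : ∀ n : ℕ, ∃ s : Finset P, s.card = n + 1 ∧ s ⊆ U ∧ ∃ t ∈ s, ∀ y ∈ s, y ≠ t → r y t := by
        intro n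
        induction n with
        | zero =>
          obtain ⟨u, hu⟩ := hUe
          refine ⟨{u}, by simp, by simpa using hu, u, by simp, ?_⟩
          intro y hy hne
          rw [mem_singleton] at hy
          exact absurd hy hne
        | succ n ih =>
          obtain ⟨s, h1, h2, t, ht, h3⟩ := ih
          obtain ⟨y, hy, hty⟩ := hcon t (h2 ht)
          have hys : y ∉ s := by
            intro h
            by_cases hyt : y = t
            · subst hyt; exact hirr _ hty
            · exact hirr _ (htr _ _ _ hty (h3 y h hyt))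
          refine ⟨insert y s, by rw [card_insert_of_notMem hys, h1], ?_, y,
            mem_insert_self _ _, ?_⟩
          · intro z hz
            rcases mem_insert.1 hz with rfl | hz
            · exact hy
            · exact h2 hz
          · intro z hz hne
            rcases mem_insert.1 hz with rfl | hz
            · exact absurd rfl hne
            · by_cases hzt : z = t
              · subst hzt; exact hty
              · exact htr _ _ _ (h3 z hz hzt) hty
      obtain ⟨s, h1, h2, -⟩ := this U.card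
      have := card_le_card h2
      omega
    obtain ⟨z1, hz1, hmax⟩ := hwf
    have hz1' := hz1
    rw [hU, mem_filter, Nb, mem_filter] at hz1'
    obtain ⟨⟨-, hz1A, x', hx', hn1, hn2⟩, -⟩ := hz1'
    have hsub : U ⊆ incF r x' ∪ incF r z1 := by
      intro z hz
      have hz' := hz
      rw [hU, mem_filter, Nb, mem_filter] at hz'
      obtain ⟨⟨-, hzA, -⟩, x, hx, hxz⟩ := hz'
      rw [mem_union, incF, incF, mem_filter, mem_filter]
      have hzx' : z ≠ x' := fun e => hzA (e ▸ hx')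
      have hnotlt : ¬ r z x' := fun h => hA x hx x' hx' (htr _ _ _ hxz h)
      by_cases h1 : r z z1 ∨ z = z1
      · left
        refine ⟨mem_univ _, hzx', hnotlt, ?_⟩
        intro h
        rcases h1 with h1 | h1
        · exact hn2 (htr _ _ _ h h1)
        · subst h1; exact hn2 h
      · right
        rw [not_or] at h1
        exact ⟨mem_univ _, h1.2, h1.1, hmax z hz⟩
    refine (card_le_card hsub).trans ((card_union_le _ _).trans ?_)
    have := hB x'
    have := hB z1
    omega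
  · rw [not_nonempty_iff_eq_empty] at hUe
    rw [hUe]; simp

lemma incF_flip (r : P → P → Prop) (x : P) : incF (fun a b => r b a) x = incF r x := by
  unfold incF
  ext z
  simp only [mem_filter, mem_univ, true_and]
  tauto

lemma Nb_flip (r : P → P → Prop) (A : Finset P) : Nb (fun a b => r b a) A = Nb r A := by
  unfold Nb
  ext z
  simp only [mem_filter, mem_univ, true_and]
  constructor
  · rintro ⟨h1, x, hx, h2, h3⟩; exact ⟨h1, x, hx, h3, h2⟩
  · rintro ⟨h1, x, hx, h2, h3⟩; exact ⟨h1, x, hx, h3, h2⟩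

lemma Nb_le {r : P → P → Prop} (htr : ∀ a b c, r a b → r b c → r a c) (hirr : ∀ a, ¬ r a a)
    {A : Finset P} (hA : ∀ a ∈ A, ∀ b ∈ A, ¬ r a b) {B : ℕ} (hB : ∀ x, (incF r x).card ≤ B) :
    (Nb r A).card ≤ 5 * B := by
  have h1 := up_le htr hirr hA hB
  have h2 := up_le (r := fun a b => r b a) (fun a b c h k => htr _ _ _ k h) hirr
    (fun a ha b hb => hA b hb a ha) (fun x => by rw [incF_flip]; exact hB x)
  rw [Nb_flip] at h2
  by_cases hAne : A.Nonempty
  · obtain ⟨x0, hx0⟩ := hAne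
    have hsub : Nb r A ⊆ ((Nb r A).filter (fun z => ∃ x ∈ A, r x z) ∪
        (Nb r A).filter (fun z => ∃ x ∈ A, r z x)) ∪ incF r x0 := by
      intro z hz
      rw [mem_union, mem_union, mem_filter, mem_filter]
      by_cases ha : ∃ x ∈ A, r x z
      · exact Or.inl (Or.inl ⟨hz, ha⟩)
      · by_cases hb : ∃ x ∈ A, r z x
        · exact Or.inl (Or.inr ⟨hz, hb⟩)
        · right
          rw [incF, mem_filter]
          rw [Nb, mem_filter] at hz
          refine ⟨mem_univ _, fun e => hz.2.1 (e ▸ hx0), ?_, ?_⟩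
          · exact fun h => hb ⟨x0, hx0, h⟩
          · exact fun h => ha ⟨x0, hx0, h⟩
    have h3 := card_le_card hsub
    have h4 := card_union_le ((Nb r A).filter (fun z => ∃ x ∈ A, r x z) ∪
        (Nb r A).filter (fun z => ∃ x ∈ A, r z x)) (incF r x0)
    have h5 := card_union_le ((Nb r A).filter (fun z => ∃ x ∈ A, r x z))
        ((Nb r A).filter (fun z => ∃ x ∈ A, r z x))
    have h6 := hB x0
    have h7 : ((Nb r A).filter (fun z => ∃ x ∈ A, r z x)).card ≤ 2 * B := h2
    omega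
  · rw [not_nonempty_iff_eq_empty] at hAne
    subst hAne
    simp [Nb]

end

/-- every element of `P` is incomparable to at most `B` elements -/
def IncLe (P : Type) [PartialOrder P] (B : ℝ) : Prop :=
  ∀ x : P, (({z : P | ¬ z ≤ x ∧ ¬ x ≤ z} : Set P).ncard : ℝ) ≤ B

lemma incF_eq {P : Type} [Fintype P] [PartialOrder P] (x : P) :
    (incF (lt' P) x).card = ({z : P | ¬ z ≤ x ∧ ¬ x ≤ z} : Set P).ncard := by
  rw [← Set.ncard_coe_finset]
  congr 1
  ext z
  simp only [incF, coe_filter, mem_univ, true_and, Set.mem_setOf_eq]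
  constructor
  · rintro ⟨h1, h2, h3⟩
    exact ⟨fun h => h2 (lt_of_le_of_ne h h1), fun h => h3 (lt_of_le_of_ne h h1.symm)⟩
  · rintro ⟨h1, h2⟩
    refine ⟨?_, fun h => h1 h.le, fun h => h2 h.le⟩
    rintro rfl
    exact h1 le_rfl

theorem balance_inc (C ε : ℝ) (hε : 0 < ε) : ∃ W : ℕ, ∀ (P : Type) [Fintype P]
    [PartialOrder P] (w : ℕ), W ≤ w → HasWidth P w → IncLe P (C * w) →
      1 / 2 - ε ≤ balance P := by
  obtain ⟨W, h⟩ := exists_pair (5 * ⌈C⌉₊) ε hε
  refine ⟨W + 1, ?_⟩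
  intro P _ _ w hw hwid hinc
  obtain ⟨⟨A, hA, hAc⟩, -⟩ := hwid
  have hne : Nonempty P := by
    obtain ⟨x, _⟩ := Finset.card_pos.1 (show 0 < A.card by omega)
    exact ⟨x⟩
  have hB : ∀ x : P, (incF (lt' P) x).card ≤ ⌈C⌉₊ * w := by
    intro x
    have h1 := hinc x
    rw [← incF_eq] at h1
    have h2 : ((incF (lt' P) x).card : ℝ) ≤ ⌈C⌉₊ * w :=
      h1.trans (mul_le_mul_of_nonneg_right (Nat.le_ceil C) (Nat.cast_nonneg _))
    exact_mod_cast h2
  obtain ⟨x, -, y, -, hxy, hlt⟩ := h P (lt' P) (fun a b c => lt_trans) (card_pos.1 lin_pos) A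
    (anti_iff.1 hA) (by omega) (by
      have := Nb_le (r := lt' P) (fun a b c => lt_trans) (fun a => lt_irrefl a) (anti_iff.1 hA) hB
      rw [hAc, mul_assoc]
      exact this)
  obtain ⟨h3, h4⟩ := half_of_abs' hxy (c := ε) hlt.le
  exact le_balance_of_cnt h3 h4

/-- infimum of the balance constants of all posets of width `w` -/
noncomputable def dAll (w : ℕ) : ℝ :=
  sInf {d : ℝ | ∃ (P : Type) (_ : Fintype P) (_ : PartialOrder P), HasWidth P w ∧ balance P = d}

/-- infimum of the balance constants of the posets of width `w` in which every element is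
incomparable to at most `C * w` elements -/
noncomputable def dInc (C : ℝ) (w : ℕ) : ℝ :=
  sInf {d : ℝ | ∃ (P : Type) (_ : Fintype P) (_ : PartialOrder P), HasWidth P w ∧
    IncLe P (C * w) ∧ balance P = d}

lemma exists_few (w : ℕ) (hw : 1 ≤ w) : ∃ (P : Type) (_ : Fintype P) (_ : PartialOrder P),
    HasWidth P w ∧ Fintype.card P ≤ 3 * w ∧ balance P ≤ 1 / 2 - 1 / (12 * (w : ℝ) - 8) := by
  obtain ⟨n, r, hn1, hn, h, hrep⟩ := exists_poset' w hw
  letI : PartialOrder (CT n) := poOf r h.po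
  have hcard : Fintype.card (CT n) = n := Fintype.card_fin n
  refine ⟨CT n, inferInstance, inferInstance, ?_, ?_, ?_⟩
  · refine ⟨?_, ?_⟩
    · obtain ⟨s, hs1, hs2⟩ := h.wid
      exact ⟨s, fun a ha b hb hab => hs2 a ha b hb hab, hs1⟩
    · intro s hs
      exact h.wid_le s (fun a ha b hb hab => hs ha hb hab)
  · rw [hcard]; omega
  · have hne : Nonempty (CT n) := ⟨(⟨0, hn1⟩ : Fin n)⟩
    have hb0 : (0 : ℝ) ≤ 1 / 2 - 1 / (12 * (w : ℝ) - 8) := by
      have hw1 : (1 : ℝ) ≤ w := by exact_mod_cast hw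
      have : 1 / (12 * (w : ℝ) - 8) ≤ 1 / 4 := by
        apply one_div_le_one_div_of_le (by norm_num)
        linarith
      linarith
    have hprob : ∀ x y : CT n, prob (CT n) x y =
        Pool.Agent.H293R3.BC.A r x y / Pool.Agent.H293R3.BC.E r := by
      intro x y
      rw [prob_card hcard, ← Pool.Agent.H293R3.BC.card_A, ← Pool.Agent.H293R3.BC.card_E]
      rfl
    have : Nonempty (CT n × CT n) := inferInstance
    unfold balance
    apply ciSup_le
    rintro ⟨x, y⟩
    simp only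
    by_cases hxy : x ≤ y
    · rw [prob_eq_zero_of_le hxy]
      exact (min_le_right _ _).trans hb0
    · by_cases hyx : y ≤ x
      · rw [prob_eq_zero_of_le hyx]
        exact (min_le_left _ _).trans hb0
      · rw [hprob, hprob]
        exact h.bal x y hxy hyx

lemma IncLe_of_card {P : Type} [Fintype P] [PartialOrder P] {B : ℝ} (h : (Fintype.card P : ℝ) ≤ B) :
    IncLe P B := by
  intro x
  refine le_trans ?_ h
  have : ({z : P | ¬ z ≤ x ∧ ¬ x ≤ z} : Set P).ncard ≤ Fintype.card P := by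
    rw [← incF_eq]
    exact card_le_univ _
  exact_mod_cast this

lemma bdd (w : ℕ) (hw : 1 ≤ w) (S : Set ℝ) (hS : ∀ d ∈ S, ∃ (P : Type) (_ : Fintype P)
    (_ : PartialOrder P), HasWidth P w ∧ balance P = d) : BddBelow S := by
  refine ⟨0, ?_⟩
  intro d hd
  obtain ⟨P, i1, i2, ⟨⟨A, _, hAc⟩, _⟩, rfl⟩ := hS d hd
  have hne : Nonempty P := by
    obtain ⟨x, _⟩ := Finset.card_pos.1 (show 0 < A.card by omega)
    exact ⟨x⟩
  exact balance_nonneg

theorem dInc_le {C : ℝ} (hC : 3 ≤ C) (w : ℕ) (hw : 1 ≤ w) :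
    dInc C w ≤ 1 / 2 - 1 / (12 * (w : ℝ) - 8) := by
  obtain ⟨P, i1, i2, h1, h2, h3⟩ := exists_few w hw
  refine le_trans ?_ h3
  unfold dInc
  apply csInf_le
  · apply bdd w hw
    rintro d ⟨Q, _, _, h4, _, h5⟩
    exact ⟨Q, _, _, h4, h5⟩
  · refine ⟨P, i1, i2, h1, IncLe_of_card ?_, rfl⟩
    have h6 : (Fintype.card P : ℝ) ≤ 3 * w := by exact_mod_cast h2
    have h7 : (3 : ℝ) * w ≤ C * w := mul_le_mul_of_nonneg_right hC (Nat.cast_nonneg _)
    linarith

theorem dAll_le_dInc {C : ℝ} (hC : 3 ≤ C) (w : ℕ) (hw : 1 ≤ w) : dAll w ≤ dInc C w := by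
  obtain ⟨P, i1, i2, h1, h2, h3⟩ := exists_few w hw
  unfold dAll dInc
  apply csInf_le_csInf
  · apply bdd w hw
    rintro d ⟨Q, _, _, h4, h5⟩
    exact ⟨Q, _, _, h4, h5⟩
  · refine ⟨_, P, i1, i2, h1, IncLe_of_card ?_, rfl⟩
    have h6 : (Fintype.card P : ℝ) ≤ 3 * w := by exact_mod_cast h2
    have h7 : (3 : ℝ) * w ≤ C * w := mul_le_mul_of_nonneg_right hC (Nat.cast_nonneg _)
    linarith
  · rintro d ⟨Q, j1, j2, h4, _, h5⟩
    exact ⟨Q, j1, j2, h4, h5⟩

theorem dInc_ge {C : ℝ} (hC : 3 ≤ C) (ε : ℝ) (hε : 0 < ε) : ∃ W : ℕ, ∀ w : ℕ, W ≤ w →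
    1 / 2 - ε ≤ dInc C w := by
  obtain ⟨W, hW⟩ := balance_inc C ε hε
  refine ⟨W + 1, ?_⟩
  intro w hw
  unfold dInc
  apply le_csInf
  · obtain ⟨P, i1, i2, h1, h2, h3⟩ := exists_few w (by omega)
    refine ⟨_, P, i1, i2, h1, IncLe_of_card ?_, rfl⟩
    have h6 : (Fintype.card P : ℝ) ≤ 3 * w := by exact_mod_cast h2
    have h7 : (3 : ℝ) * w ≤ C * w := mul_le_mul_of_nonneg_right hC (Nat.cast_nonneg _)
    linarith
  · rintro d ⟨P, i1, i2, h1, h2, rfl⟩
    exact hW P w (by omega) h1 h2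

theorem dInc_tendsto {C : ℝ} (hC : 3 ≤ C) :
    Filter.Tendsto (dInc C) Filter.atTop (nhds (1 / 2)) := by
  rw [Metric.tendsto_atTop]
  intro ε hε
  obtain ⟨W, hW⟩ := dInc_ge hC (ε / 2) (by linarith)
  refine ⟨W + 1, fun w hw => ?_⟩
  have h1 := hW w (by omega)
  have h2 := dInc_le hC w (by omega)
  have hw1 : (1 : ℝ) ≤ w := by
    have : 1 ≤ w := by omega
    exact_mod_cast this
  have h3 : (0 : ℝ) ≤ 1 / (12 * (w : ℝ) - 8) := by
    apply div_nonneg (by norm_num); linarith
  rw [Real.dist_eq, abs_lt]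
  constructor <;> linarith

theorem dInc_growth {C : ℝ} (hC : 3 ≤ C) (w : ℕ) (hw : 1 ≤ w) :
    ∃ W : ℕ, ∀ v, W ≤ v → dInc C w < dInc C v := by
  have h1 : dInc C w < 1 / 2 := by
    refine (dInc_le hC w hw).trans_lt ?_
    have hw1 : (1 : ℝ) ≤ w := by exact_mod_cast hw
    have : (0 : ℝ) < 1 / (12 * (w : ℝ) - 8) := by
      apply div_pos (by norm_num); linarith
    linarith
  obtain ⟨W, hW⟩ := dInc_ge hC ((1 / 2 - dInc C w) / 2) (by linarith)
  refine ⟨W, fun v hv => ?_⟩
  have := hW v hv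
  linarith

end Pool.Agent.TH447.KL
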