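import Mathlib
import Pool.Agent.TH161.LW.Final3
import Pool.Agent.TH447.KL.Inc
import Pool.Agent.H13R3.WB.Lin

set_option autoImplicit false

/-!
# Posets in which every element is incomparable to few elements: explicit rate
-/

open Finset Classical

namespace Pool.Agent.TH447.KLR

open Pool.Agent.TH447.KS Pool.Agent.H13R3.WB Pool.Agent.H931R3.Bal Pool.Agent.TH447.KL

lemma eN_pos (P : Type) [Fintype P] [PartialOrder P] : 0 < Pool.Agent.TH161.LW.eN P := by
  unfold Pool.Agent.TH161.LW.eN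
  rw [Nat.card_pos_iff]
  refine ⟨?_, inferInstance⟩
  let _ : Fintype (LinearExtension P) := inferInstanceAs (Fintype P)
  let e : Fin (Fintype.card P) ≃o LinearExtension P :=
    monoEquivOfFin (LinearExtension P) rfl
  let σ : P ≃ Fin (Fintype.card P) := e.symm.toEquiv
  refine ⟨σ, ?_⟩
  have hm : Monotone (toLinearExtension : P → LinearExtension P) := toLinearExtension.monotone
  intro a b hab
  refine lt_of_le_of_ne ?_ (fun h => hab.ne (σ.injective h))
  exact e.symm.monotone (hm hab.le)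

lemma prob_eq (P : Type) [Fintype P] [PartialOrder P] (x y : P) :
    prob P x y = (Pool.Agent.TH161.LW.eP P x y : ℝ) / Pool.Agent.TH161.LW.eN P := by
  unfold prob Pool.Agent.TH161.LW.eP Pool.Agent.TH161.LW.eN
  have h : ∀ f : P ≃ Fin (Fintype.card P), Monotone ⇑f ↔ StrictMono ⇑f := fun f =>
    ⟨fun h => h.strictMono_of_injective f.injective, fun h => h.monotone⟩
  simp only [h]

/-- a poset of width `w` in which every element is incomparable to at most `C * w` elements has
balance constant at least `1 / 2 - ε` once `log w ≥ 2 * 10 ^ 7 * log ((5 C + 1) / ε) ^ 3 / ε ^ 4` -/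
theorem balance_rate {C ε : ℝ} (hC : 0 ≤ C) (hε0 : 0 < ε) (hε2 : ε ≤ 1 / 2)
    (P : Type) [Fintype P] [PartialOrder P] (w : ℕ) (hwid : HasWidth P w)
    (hinc : IncLe P (C * w))
    (hw : 20000000 * Real.log ((5 * C + 1) / ε) ^ 3 / ε ^ 4 ≤ Real.log w) :
    1 / 2 - ε ≤ balance P := by
  obtain ⟨⟨A, hA, hAc⟩, -⟩ := hwid
  have hB : ∀ x : P, (incF (lt' P) x).card ≤ ⌊C * w⌋₊ := by
    intro x
    have h1 := hinc x
    rw [← incF_eq] at h1
    exact Nat.le_floor h1
  have hNb := Nb_le (r := lt' P) (fun a b c => lt_trans) (fun a => lt_irrefl a) (anti_iff.1 hA) hB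
  have hfl : (⌊C * w⌋₊ : ℝ) ≤ C * w := Nat.floor_le (by positivity)
  have hKK : ((Pool.Agent.TH161.LW.KK A).card : ℝ) ≤ (5 * C + 1) * A.card := by
    have hsub : Pool.Agent.TH161.LW.KK A ⊆ A ∪ Nb (lt' P) A := by
      intro z hz
      unfold Pool.Agent.TH161.LW.KK at hz
      simp only [Finset.mem_filter, Finset.mem_univ, true_and] at hz
      obtain ⟨h1, h2⟩ := hz
      push Not at h1 h2
      obtain ⟨x, hx, hzx⟩ := h1
      obtain ⟨y, hy, hyz⟩ := h2
      rw [mem_union]
      by_cases hzA : z ∈ A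
      · exact Or.inl hzA
      · right
        rw [Nb, mem_filter]
        refine ⟨mem_univ _, hzA, ?_⟩
        by_cases h3 : x < z
        · by_cases h4 : z < y
          · exact absurd (h3.trans h4).le (hA hx hy (h3.trans h4).ne)
          · exact ⟨y, hy, h4, hyz⟩
        · exact ⟨x, hx, hzx, h3⟩
    have h1 := (card_le_card hsub).trans (card_union_le _ _)
    have h2 : ((Pool.Agent.TH161.LW.KK A).card : ℝ) ≤ A.card + (Nb (lt' P) A).card := by
      exact_mod_cast h1
    have h3 : ((Nb (lt' P) A).card : ℝ) ≤ 5 * (⌊C * w⌋₊ : ℝ) := by exact_mod_cast hNb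
    rw [hAc] at h2 ⊢
    nlinarith
  obtain ⟨x, hx, y, hy, hxy, h1, h2⟩ := Pool.Agent.TH161.LW.main_real hε0 hε2
    (show (1 : ℝ) ≤ 5 * C + 1 by linarith) hA hKK (by rw [hAc]; exact hw)
  have he : (0 : ℝ) < Pool.Agent.TH161.LW.eN P := by exact_mod_cast eN_pos P
  have h1' : 1 / 2 - ε ≤ prob P x y := by
    rw [prob_eq, le_div_iff₀ he]; exact h1
  have h2' : 1 / 2 - ε ≤ prob P y x := by
    rw [prob_eq, le_div_iff₀ he]; exact h2
  unfold balance
  exact (le_min h1' h2').trans
    (le_ciSup (f := fun p : P × P => min (prob P p.1 p.2) (prob P p.2 p.1))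
      (Set.finite_range _).bddAbove (x, y))

theorem dInc_rate {C ε : ℝ} (hC : 3 ≤ C) (hε0 : 0 < ε) (hε2 : ε ≤ 1 / 2) {w : ℕ} (hw1 : 1 ≤ w)
    (hw : 20000000 * Real.log ((5 * C + 1) / ε) ^ 3 / ε ^ 4 ≤ Real.log w) :
    1 / 2 - ε ≤ dInc C w := by
  unfold dInc
  apply le_csInf
  · obtain ⟨P, i1, i2, h1, h2, h3⟩ := exists_few w hw1
    refine ⟨_, P, i1, i2, h1, IncLe_of_card ?_, rfl⟩
    have h6 : (Fintype.card P : ℝ) ≤ 3 * w := by exact_mod_cast h2
    have h7 : (3 : ℝ) * w ≤ C * w := mul_le_mul_of_nonneg_right hC (Nat.cast_nonneg _)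
    linarith
  · rintro d ⟨P, i1, i2, h1, h2, rfl⟩
    exact balance_rate (by linarith) hε0 hε2 P w h1 h2 hw

/-- explicit growth: the minimal balance constant of width `w` is exceeded at every width `v` with
`log v ≥ 2 * 10 ^ 7 * (12 w - 7) ^ 4 * log ((5 C + 1) (12 w - 7)) ^ 3` -/
theorem dInc_growth_explicit {C : ℝ} (hC : 3 ≤ C) {w v : ℕ} (hw1 : 1 ≤ w)
    (hv : 20000000 * (12 * (w : ℝ) - 7) ^ 4 * Real.log ((5 * C + 1) * (12 * w - 7)) ^ 3
      ≤ Real.log v) :
    dInc C w < dInc C v := by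
  have hw1' : (1 : ℝ) ≤ w := by exact_mod_cast hw1
  set L : ℝ := 12 * (w : ℝ) - 7 with hL
  have hL5 : 5 ≤ L := by rw [hL]; linarith
  have hv1 : 1 ≤ v := by
    rcases Nat.eq_zero_or_pos v with h | h
    · exfalso
      subst h
      simp only [Nat.cast_zero, Real.log_zero] at hv
      have h1 : 0 < Real.log ((5 * C + 1) * L) := by
        apply Real.log_pos
        nlinarith
      have : 0 < 20000000 * L ^ 4 * Real.log ((5 * C + 1) * L) ^ 3 := by positivity
      linarith
    · exact h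
  have h1 := dInc_le hC w hw1
  have h2 := dInc_rate (ε := 1 / L) hC (by positivity) (by
    rw [div_le_div_iff₀ (by linarith) (by norm_num)]; linarith) hv1 (by
      have e1 : (5 * C + 1) / (1 / L) = (5 * C + 1) * L := by
        rw [div_div_eq_mul_div, div_one]
      have e2 : 20000000 * Real.log ((5 * C + 1) / (1 / L)) ^ 3 / (1 / L) ^ 4
          = 20000000 * L ^ 4 * Real.log ((5 * C + 1) * L) ^ 3 := by
        rw [e1]
        field_simp
      rw [e2]
      exact hv)
  have h3 : 1 / L < 1 / (12 * (w : ℝ) - 8) := by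
    apply one_div_lt_one_div_of_lt
    · linarith
    · rw [hL]; linarith
  linarith

end Pool.Agent.TH447.KLR
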